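import Mathlib

set_option autoImplicit false

open scoped InnerProductSpace TensorProduct

namespace Pool.Agent.H768R2.FQ

section

variable {E F E' : Type*} [NormedAddCommGroup E] [InnerProductSpace ℂ E]
  [NormedAddCommGroup F] [InnerProductSpace ℂ F] [NormedAddCommGroup E'] [InnerProductSpace ℂ E']

theorem exists_onb_repr (z : E ⊗[ℂ] F) : ∃ (n : ℕ) (e : Fin n → E) (f : Fin n → F),
    Orthonormal ℂ e ∧ z = ∑ i, e i ⊗ₜ[ℂ] f i := by
  obtain ⟨V, hfin, h⟩ := TensorProduct.exists_finite_submodule_left_of_setFinite {z}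
    (Set.finite_singleton z)
  have hz : z ∈ ((LinearMap.range (V.subtype.rTensor F) : Submodule ℂ (E ⊗[ℂ] F)) :
      Set (E ⊗[ℂ] F)) := h (Set.mem_singleton z)
  obtain ⟨y, rfl⟩ := hz
  let e := stdOrthonormalBasis ℂ V
  have key : ∀ y : V ⊗[ℂ] F, ∃ f : Fin (Module.finrank ℂ V) → F,
      y = ∑ i, e i ⊗ₜ[ℂ] f i := by
    intro y
    induction y using TensorProduct.induction_on with
    | zero => exact ⟨fun _ => 0, by simp⟩
    | tmul a b =>
      refine ⟨fun i => ⟪e i, a⟫_ℂ • b, ?_⟩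
      conv_lhs => rw [← e.sum_repr' a]
      rw [TensorProduct.sum_tmul]
      simp only [TensorProduct.smul_tmul, TensorProduct.tmul_smul]
    | add y1 y2 h1 h2 =>
      obtain ⟨f1, hf1⟩ := h1
      obtain ⟨f2, hf2⟩ := h2
      refine ⟨fun i => f1 i + f2 i, ?_⟩
      simp only [TensorProduct.tmul_add, Finset.sum_add_distrib]
      rw [hf1, hf2]
  obtain ⟨f, hf⟩ := key y
  refine ⟨_, fun i => (e i : E), f, ?_, ?_⟩
  · have := e.orthonormal
    exact this.comp_linearIsometry V.subtypeₗᵢ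
  · rw [hf, map_sum]
    rfl

theorem norm_sq_onb {n : ℕ} (e : Fin n → E) (f : Fin n → F) (he : Orthonormal ℂ e) :
    ‖∑ i, e i ⊗ₜ[ℂ] f i‖ ^ 2 = ∑ i, ‖f i‖ ^ 2 := by
  have h : ((‖∑ i, e i ⊗ₜ[ℂ] f i‖ : ℝ) : ℂ) ^ 2 = ((∑ i, ‖f i‖ ^ 2 : ℝ) : ℂ) := by
    rw [← RCLike.ofReal_eq_complex_ofReal, ← inner_self_eq_norm_sq_to_K (𝕜 := ℂ), sum_inner]
    simp only [inner_sum, TensorProduct.inner_tmul, orthonormal_iff_ite.1 he]
    simp [inner_self_eq_norm_sq_to_K]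
  exact_mod_cast h

theorem norm_lT_le (T : F →L[ℂ] E') (z : E ⊗[ℂ] F) :
    ‖LinearMap.lTensor E (T : F →ₗ[ℂ] E') z‖ ≤ ‖T‖ * ‖z‖ := by
  obtain ⟨n, e, f, he, rfl⟩ := exists_onb_repr z
  have h1 : LinearMap.lTensor E (T : F →ₗ[ℂ] E') (∑ i, e i ⊗ₜ[ℂ] f i) =
      ∑ i, e i ⊗ₜ[ℂ] (T (f i)) := by
    rw [map_sum]; rfl
  rw [h1]
  have h2 := norm_sq_onb e (fun i => T (f i)) he
  have h3 := norm_sq_onb e f he
  rw [← abs_of_nonneg (norm_nonneg (∑ i, e i ⊗ₜ[ℂ] (T (f i)))),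
    ← abs_of_nonneg (mul_nonneg (norm_nonneg T) (norm_nonneg (∑ i, e i ⊗ₜ[ℂ] f i))),
    ← sq_le_sq, mul_pow, h2, h3, Finset.mul_sum]
  refine Finset.sum_le_sum (fun i _ => ?_)
  rw [← mul_pow]
  exact pow_le_pow_left₀ (norm_nonneg _) (T.le_opNorm _) 2

theorem norm_rT_le (T : F →L[ℂ] E') (z : F ⊗[ℂ] E) :
    ‖LinearMap.rTensor E (T : F →ₗ[ℂ] E') z‖ ≤ ‖T‖ * ‖z‖ := by
  have h1 : LinearMap.rTensor E (T : F →ₗ[ℂ] E') z =
      TensorProduct.comm ℂ E E' (LinearMap.lTensor E (T : F →ₗ[ℂ] E') (TensorProduct.comm ℂ F E z)) := by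
    induction z using TensorProduct.induction_on with
    | zero => simp
    | tmul a b => simp
    | add y1 y2 h1 h2 => rw [map_add, h1, h2]; simp only [map_add]
  rw [h1, TensorProduct.norm_comm]
  refine (norm_lT_le T _).trans ?_
  rw [TensorProduct.norm_comm]

end

end Pool.Agent.H768R2.FQ
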