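import Pool.Agent.H768R2.FQ.Words

set_option autoImplicit false

open scoped InnerProductSpace TensorProduct Topology NNReal
open Filter

namespace Pool.Agent.H768R2.FQ

universe u

section vnd

set_option linter.unusedSectionVars false

variable {H : Type u} [NormedAddCommGroup H] [InnerProductSpace ℂ H] [CompleteSpace H]

/-- diagonal operator -/
noncomputable def vnd_D (T : H →L[ℂ] H) :
    lp (fun _ : ℕ => H) 2 →L[ℂ] lp (fun _ : ℕ => H) 2 :=
  lp.mapCLM 2 (fun _ => T) (K := ‖T‖) (norm_nonneg _) (fun _ => le_rfl)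

theorem vnd_D_apply (T : H →L[ℂ] H) (f : lp (fun _ : ℕ => H) 2) (k : ℕ) :
    (vnd_D T f) k = T (f k) := rfl

theorem vnd_D_adj (T : H →L[ℂ] H) (f g : lp (fun _ : ℕ => H) 2) :
    ⟪vnd_D T f, g⟫_ℂ = ⟪f, vnd_D (star T) g⟫_ℂ := by
  rw [lp.inner_eq_tsum, lp.inner_eq_tsum]
  congr 1
  funext k
  rw [vnd_D_apply, vnd_D_apply, ContinuousLinearMap.star_eq_adjoint,
    ContinuousLinearMap.adjoint_inner_right]

theorem vnd_D_mul (T T' : H →L[ℂ] H) (f : lp (fun _ : ℕ => H) 2) :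
    vnd_D (T * T') f = vnd_D T (vnd_D T' f) := by
  apply lp.ext
  funext k
  rfl

theorem vnd_D_sub (T T' : H →L[ℂ] H) (f : lp (fun _ : ℕ => H) 2) :
    vnd_D (T - T') f = vnd_D T f - vnd_D T' f := by
  apply lp.ext
  funext k
  rfl

theorem vnd_D_one (f : lp (fun _ : ℕ => H) 2) : vnd_D 1 f = f := by
  apply lp.ext
  funext k
  rfl

theorem vnd_D_single (T : H →L[ℂ] H) (l : ℕ) (h : H) :
    vnd_D T (lp.single 2 l h : lp (fun _ : ℕ => H) 2) = lp.single 2 l (T h) := by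
  apply lp.ext
  funext k
  rw [vnd_D_apply]
  by_cases hk : k = l
  · subst hk
    rw [lp.single_apply_self, lp.single_apply_self]
  · rw [lp.single_apply_ne _ _ _ hk, lp.single_apply_ne _ _ _ hk, map_zero]

theorem vnd_main (S : StarSubalgebra ℂ (H →L[ℂ] H)) (x : H →L[ℂ] H)
    (hx : ∀ e : H →L[ℂ] H, (∀ y ∈ S, y * e = e * y) → e * x = x * e)
    (Ξ : lp (fun _ : ℕ => H) 2) (ε : ℝ) (hε : 0 < ε) :
    ∃ y ∈ S, ‖vnd_D x Ξ - vnd_D y Ξ‖ < ε := by
  classical
  let L : (H →L[ℂ] H) →ₗ[ℂ] lp (fun _ : ℕ => H) 2 :=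
    { toFun := fun y => vnd_D y Ξ
      map_add' := fun y z => by
        apply lp.ext
        funext k
        rfl
      map_smul' := fun c y => by
        apply lp.ext
        funext k
        rfl }
  set V0 : Submodule ℂ (lp (fun _ : ℕ => H) 2) :=
    Submodule.map L (Subalgebra.toSubmodule S.toSubalgebra) with hV0
  have hV0mem : ∀ v, v ∈ V0 ↔ ∃ y ∈ S, vnd_D y Ξ = v := by
    intro v
    rw [hV0, Submodule.mem_map]
    rfl
  set V := V0.topologicalClosure with hV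
  have : CompleteSpace V := (Submodule.isClosed_topologicalClosure V0).completeSpace_coe
  have hinv : ∀ y ∈ S, ∀ v ∈ V, vnd_D y v ∈ V := by
    intro y hy v hv
    refine map_mem_closure (vnd_D y).continuous hv ?_
    rintro w hw
    obtain ⟨z, hz, rfl⟩ := (hV0mem w).mp hw
    exact (hV0mem _).mpr ⟨y * z, mul_mem hy hz, vnd_D_mul _ _ _⟩
  obtain ⟨e, he⟩ : ∃ e, e = V.starProjection := ⟨_, rfl⟩
  have hcomm : ∀ y ∈ S, ∀ f, e (vnd_D y f) = vnd_D y (e f) := by
    intro y hy f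
    rw [he]
    refine Submodule.eq_starProjection_of_mem_of_inner_eq_zero
      (hinv y hy _ (Submodule.starProjection_apply_mem V f)) ?_
    intro w hw
    rw [← map_sub, vnd_D_adj]
    exact Submodule.starProjection_inner_eq_zero _ _ (hinv _ (star_mem hy) w hw)
  let E2 : ℕ → ℕ → (H →L[ℂ] H) := fun k l =>
    (lp.evalCLM ℂ (fun _ : ℕ => H) 2 k) ∘L e ∘L (lp.singleContinuousLinearMap ℂ (fun _ : ℕ => H) 2 l)
  have hE2 : ∀ k l h, E2 k l h = (e (lp.single 2 l h)) k := fun k l h => rfl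
  have hEx : ∀ k l, E2 k l * x = x * E2 k l := by
    intro k l
    apply hx
    intro y hy
    ext h
    show y (E2 k l h) = E2 k l (y h)
    rw [hE2, hE2, ← vnd_D_single, hcomm y hy, vnd_D_apply]
  have hex : ∀ f, e (vnd_D x f) = vnd_D x (e f) := by
    have h1 : e ∘L (vnd_D x) = (vnd_D x) ∘L e := by
      apply lp.ext_continuousLinearMap (by simp)
      intro l
      apply ContinuousLinearMap.ext
      intro h
      show e (vnd_D x (lp.single 2 l h)) = vnd_D x (e (lp.single 2 l h))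
      apply lp.ext
      funext k
      have h2 : E2 k l (x h) = x (E2 k l h) := by
        have := congrArg (fun T : H →L[ℂ] H => T h) (hEx k l)
        exact this
      rw [vnd_D_single, vnd_D_apply]
      rw [hE2, hE2] at h2
      exact h2
    intro f
    exact congrArg (fun T : lp (fun _ : ℕ => H) 2 →L[ℂ] lp (fun _ : ℕ => H) 2 => T f) h1
  have hΞ : Ξ ∈ V := by
    apply Submodule.le_topologicalClosure
    exact (hV0mem _).mpr ⟨1, one_mem S, vnd_D_one Ξ⟩
  have hxΞ : vnd_D x Ξ ∈ V := by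
    have h1 : V.starProjection (vnd_D x Ξ) = vnd_D x Ξ := by
      rw [← he, hex, he, Submodule.starProjection_eq_self_iff.mpr hΞ]
    exact Submodule.starProjection_eq_self_iff.mp h1
  have hcl : vnd_D x Ξ ∈ closure (V0 : Set (lp (fun _ : ℕ => H) 2)) := hxΞ
  obtain ⟨v, hv, hd⟩ := Metric.mem_closure_iff.mp hcl ε hε
  obtain ⟨y, hy, rfl⟩ := (hV0mem v).mp hv
  exact ⟨y, hy, by rw [← dist_eq_norm]; exact hd⟩

end vnd

variable {K : Type u} [NormedAddCommGroup K] [InnerProductSpace ℂ K] [CompleteSpace K]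

section dens

variable {N : VonNeumannAlgebra K} (τ : TraceState N) {m : ℕ} (x : Fin m → Elt N)

/-- the star algebra of noncommutative polynomials in the self-adjoint elements `x_i` -/
noncomputable def polyAlg (hx : ∀ i, star (x i) = x i) : StarSubalgebra ℂ (Elt N) where
  carrier := (Submodule.span ℂ (Set.range (mono x)) : Set (Elt N))
  mul_mem' := by
    intro a b ha hb
    have h1 : a * b ∈ Submodule.span ℂ (Set.range (mono x)) * Submodule.span ℂ (Set.range (mono x)) :=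
      Submodule.mul_mem_mul ha hb
    rw [Submodule.span_mul_span] at h1
    refine Submodule.span_mono ?_ h1
    rintro _ ⟨_, ⟨v, rfl⟩, _, ⟨w, rfl⟩, rfl⟩
    exact ⟨v ++ w, mono_append x v w⟩
  add_mem' := fun ha hb => Submodule.add_mem _ ha hb
  algebraMap_mem' := by
    intro c
    rw [Algebra.algebraMap_eq_smul_one]
    exact Submodule.smul_mem _ _ (Submodule.subset_span ⟨[], mono_nil x⟩)
  star_mem' := by
    intro a ha
    have hstar : ∀ w : List (Fin m), star (mono x w) = mono x w.reverse := by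
      intro w
      induction w with
      | nil => rw [mono_nil, star_one, List.reverse_nil, mono_nil]
      | cons j w ih => rw [mono_cons, star_mul, ih, hx, List.reverse_cons, mono_snoc]
    have ha' : a ∈ Submodule.span ℂ (Set.range (mono x)) := ha
    show star a ∈ Submodule.span ℂ (Set.range (mono x))
    induction ha' using Submodule.span_induction with
    | mem v hv =>
      obtain ⟨w, rfl⟩ := hv
      rw [hstar]
      exact Submodule.subset_span ⟨_, rfl⟩
    | zero => rw [star_zero]; exact Submodule.zero_mem _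
    | add v w _ _ h1 h2 => rw [star_add]; exact Submodule.add_mem _ (h1 (by assumption)) (h2 (by assumption))
    | smul c v _ h1 => rw [star_smul]; exact Submodule.smul_mem _ _ (h1 (by assumption))

theorem mem_polyAlg (hx : ∀ i, star (x i) = x i) (a : Elt N) :
    a ∈ polyAlg x hx ↔ a ∈ Submodule.span ℂ (Set.range (mono x)) := Iff.rfl

theorem dense_poly (hx : ∀ i, star (x i) = x i)
    (hN : ∀ e : K →L[ℂ] K, (∀ i, (x i : K →L[ℂ] K) * e = e * (x i : K →L[ℂ] K)) →
      ∀ y ∈ N, e * y = y * e) (y : Elt N) (ε : ℝ) (hε : 0 < ε) :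
    ∃ p ∈ Submodule.span ℂ (Set.range (mono x)), ‖hat τ y - hat τ p‖ < ε := by
  obtain ⟨ξ, hξ, htξ⟩ := τ.normal
  have hmem : Memℓp ξ 2 := by
    apply memℓp_gen
    simpa using hξ
  obtain ⟨Ξ, hΞ⟩ : ∃ Ξ : lp (fun _ : ℕ => K) 2, ∀ k, Ξ k = ξ k := ⟨⟨ξ, hmem⟩, fun k => rfl⟩
  have hn2 : ∀ z : Elt N, ‖hat τ z‖ = ‖vnd_D (z : K →L[ℂ] K) Ξ‖ := by
    intro z
    have h1 : τ.toFun (star z * z) = ⟪vnd_D (z : K →L[ℂ] K) Ξ, vnd_D (z : K →L[ℂ] K) Ξ⟫_ℂ := by
      rw [htξ, lp.inner_eq_tsum]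
      congr 1
      funext k
      rw [vnd_D_apply, hΞ]
      have h2 : ((star z * z : Elt N) : K →L[ℂ] K) (ξ k) =
        (ContinuousLinearMap.adjoint (z : K →L[ℂ] K)) ((z : K →L[ℂ] K) (ξ k)) := rfl
      rw [h2, ContinuousLinearMap.adjoint_inner_right]
    have h2 := hat_norm_sq τ z
    rw [h1, inner_self_eq_norm_sq_to_K] at h2
    have h2' : ((‖hat τ z‖ : ℝ) : ℂ) ^ 2 = ((‖vnd_D (z : K →L[ℂ] K) Ξ‖ : ℝ) : ℂ) ^ 2 := h2
    have h3 : ‖hat τ z‖ ^ 2 = ‖vnd_D (z : K →L[ℂ] K) Ξ‖ ^ 2 := by exact_mod_cast h2'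
    exact (pow_left_inj₀ (norm_nonneg _) (norm_nonneg _) two_ne_zero).1 h3
  obtain ⟨y', hy', hyε⟩ := vnd_main ((polyAlg x hx).map N.toStarSubalgebra.subtype)
    (y : K →L[ℂ] K) (by
      intro e he
      apply hN _ _ _ y.2
      intro i
      refine he _ (StarSubalgebra.mem_map.mpr ⟨x i, ?_, rfl⟩)
      rw [mem_polyAlg]
      refine Submodule.subset_span ⟨[i], ?_⟩
      rw [mono_cons, mono_nil, mul_one]) Ξ ε hε
  obtain ⟨y0, hy0, rfl⟩ := StarSubalgebra.mem_map.mp hy'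
  refine ⟨y0, hy0, ?_⟩
  rw [← hat_sub, hn2]
  have h1 : ((y - y0 : Elt N) : K →L[ℂ] K) = (y : K →L[ℂ] K) - (y0 : K →L[ℂ] K) := rfl
  rw [h1, vnd_D_sub]
  exact hyε

theorem dense_mono (hx : ∀ i, star (x i) = x i)
    (hN : ∀ e : K →L[ℂ] K, (∀ i, (x i : K →L[ℂ] K) * e = e * (x i : K →L[ℂ] K)) →
      ∀ y ∈ N, e * y = y * e) :
    Dense (hat τ '' (Submodule.span ℂ (Set.range (mono x)) : Set (Elt N))) := by
  rw [Metric.dense_iff]
  intro ξ ε hε
  obtain ⟨y, hy⟩ := Metric.dense_iff.1 (hat_dense τ) ξ (ε / 2) (by positivity)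
  obtain ⟨hy1, ⟨y, rfl⟩⟩ := hy
  obtain ⟨p, hp, hp2⟩ := dense_poly τ x hx hN y (ε / 2) (by positivity)
  refine ⟨hat τ p, ?_, p, hp, rfl⟩
  rw [Metric.mem_ball] at hy1 ⊢
  calc dist (hat τ p) ξ ≤ dist (hat τ p) (hat τ y) + dist (hat τ y) ξ := dist_triangle _ _ _
    _ < ε / 2 + ε / 2 := by
      apply add_lt_add _ hy1
      rw [dist_comm, dist_eq_norm]
      exact hp2
    _ = ε := by ring

end dens

end Pool.Agent.H768R2.FQ
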