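import Pool.Agent.H768R2.FQ.Exist

set_option autoImplicit false

open scoped InnerProductSpace Topology NNReal
open Filter

namespace Pool.Agent.H768R2.FQ

universe u

variable {E : Type u} [NormedAddCommGroup E] [InnerProductSpace ℂ E] [CompleteSpace E]
variable {G : Type u} [NormedAddCommGroup G] [InnerProductSpace ℂ G] [CompleteSpace G]

omit [CompleteSpace E] [CompleteSpace G] in
theorem lap_unique (T : Submodule ℂ (E × G)) {ξ ζ : E} (h : (ξ, ζ) ∈ lapGraph T)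
    (h2 : ζ = -ξ) : ξ = 0 := by
  obtain ⟨α, h3, h4⟩ := h
  rw [Submodule.mem_adjoint_iff] at h4
  have h5 := h4 ξ α h3
  simp only at h5
  rw [h2, inner_neg_right, inner_self_eq_norm_sq_to_K, inner_self_eq_norm_sq_to_K] at h5
  have h6 : ‖α‖ ^ 2 + ‖ξ‖ ^ 2 = 0 := by
    have := congrArg Complex.re h5
    rw [sub_neg_eq_add] at this
    have e : ((‖α‖ : ℂ) ^ 2 + (‖ξ‖ : ℂ) ^ 2).re = ‖α‖ ^ 2 + ‖ξ‖ ^ 2 := by norm_cast
    have h7 : ((‖α‖ : ℂ) ^ 2 + (‖ξ‖ : ℂ) ^ 2).re = 0 := this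
    rw [← e, h7]
  have h7 : ‖ξ‖ = 0 := by nlinarith [sq_nonneg ‖α‖, sq_nonneg ‖ξ‖, norm_nonneg ξ]
  exact norm_eq_zero.1 h7

omit [CompleteSpace E] [CompleteSpace G] in
theorem lap_sub (T : Submodule ℂ (E × G)) {ξ ζ ξ' ζ' : E} (h : (ξ, ζ) ∈ lapGraph T)
    (h' : (ξ', ζ') ∈ lapGraph T) : (ξ - ξ', ζ - ζ') ∈ lapGraph T := by
  obtain ⟨α, h1, h2⟩ := h
  obtain ⟨β, h3, h4⟩ := h'
  exact ⟨α - β, T.sub_mem h1 h3, T.adjoint.sub_mem h2 h4⟩

theorem exists_resolvent (T : Submodule ℂ (E × G)) (hc : IsClosed (T : Set (E × G)))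
    (hd : Dense {ξ : E | ∃ α, (ξ, α) ∈ T}) : ∃ R : E →L[ℂ] E, IsSelfAdjoint R ∧
      spectrum ℝ R ⊆ Set.Icc 0 1 ∧ DenseRange R ∧
      ∀ ξ ζ, (ξ, ζ) ∈ lapGraph T ↔ ξ = R (ξ + ζ) := by
  let e := WithLp.prodContinuousLinearEquiv 2 ℂ E G
  let T' : Submodule ℂ (WithLp 2 (E × G)) := T.comap (e : WithLp 2 (E × G) →ₗ[ℂ] E × G)
  have hT' : ∀ v : WithLp 2 (E × G), v ∈ T' ↔ (v.fst, v.snd) ∈ T := fun v => Iff.rfl
  have hc' : IsClosed (T' : Set (WithLp 2 (E × G))) := hc.preimage e.continuous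
  have : CompleteSpace T' := hc'.completeSpace_coe
  let P := T'.starProjection
  let ι : E →L[ℂ] WithLp 2 (E × G) := (e.symm : (E × G) →L[ℂ] WithLp 2 (E × G)) ∘L
    ContinuousLinearMap.inl ℂ E G
  let R : E →L[ℂ] E := (ContinuousLinearMap.fst ℂ E G ∘L
    (e : WithLp 2 (E × G) →L[ℂ] E × G)) ∘L P ∘L ι
  have hι : ∀ ξ, ι ξ = WithLp.toLp 2 (ξ, (0 : G)) := fun ξ => rfl
  have hRdef : ∀ ξ, R ξ = (P (ι ξ)).fst := fun ξ => rfl
  have hPmem : ∀ ξ, P ξ ∈ T' := fun ξ => Submodule.starProjection_apply_mem T' ξ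
  have hRin : ∀ ξ η, ⟪R ξ, η⟫_ℂ = ⟪P (ι ξ), ι η⟫_ℂ := by
    intro ξ η
    rw [hRdef, hι η, WithLp.prod_inner_apply]
    simp
  have hRin' : ∀ ξ η, ⟪η, R ξ⟫_ℂ = ⟪ι η, P (ι ξ)⟫_ℂ := by
    intro ξ η
    rw [← inner_conj_symm, hRin, inner_conj_symm]
  have hPsa : ∀ v w : WithLp 2 (E × G), ⟪P v, w⟫_ℂ = ⟪v, P w⟫_ℂ := by
    intro v w
    exact Submodule.inner_starProjection_left_eq_right T' v w
  have hRsym : ∀ ξ η, ⟪R ξ, η⟫_ℂ = ⟪ξ, R η⟫_ℂ := by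
    intro ξ η
    rw [hRin, hRin', hPsa]
  have hRsa : IsSelfAdjoint R := by
    rw [ContinuousLinearMap.isSelfAdjoint_iff_isSymmetric]
    exact fun ξ η => hRsym ξ η
  -- the resolvent identity
  have hres : ∀ ξ, (R ξ, ξ - R ξ) ∈ lapGraph T := by
    intro ξ
    refine ⟨(P (ι ξ)).snd, hPmem (ι ξ), ?_⟩
    rw [Submodule.mem_adjoint_iff]
    intro a b hab
    have h1 : ⟪ι ξ - P (ι ξ), WithLp.toLp 2 (a, b)⟫_ℂ = 0 :=
      Submodule.starProjection_inner_eq_zero (K := T') (ι ξ) (WithLp.toLp 2 (a, b)) hab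
    rw [WithLp.prod_inner_apply] at h1
    have h2 : ⟪ξ - R ξ, a⟫_ℂ + ⟪(0 : G) - (P (ι ξ)).snd, b⟫_ℂ = 0 := h1
    rw [zero_sub, inner_neg_left] at h2
    have h3 := congrArg (starRingEnd ℂ) h2
    rw [map_add, map_neg, inner_conj_symm, inner_conj_symm, map_zero] at h3
    show ⟪b, (P (ι ξ)).snd⟫_ℂ - ⟪a, ξ - R ξ⟫_ℂ = 0
    linear_combination -h3
  have hΔ : ∀ ξ ζ, (ξ, ζ) ∈ lapGraph T ↔ ξ = R (ξ + ζ) := by
    intro ξ ζ
    constructor
    · intro h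
      have h1 := lap_sub T h (hres (ξ + ζ))
      have h2 := lap_unique T h1 (by abel)
      exact sub_eq_zero.1 h2
    · intro h
      have h1 := hres (ξ + ζ)
      rw [← h] at h1
      simpa using h1
  have hinj : ∀ ξ, R ξ = 0 → ξ = 0 := by
    intro ξ h
    have h1 := hres ξ
    rw [h, sub_zero] at h1
    obtain ⟨α, h2, h3⟩ := h1
    rw [Submodule.mem_adjoint_iff] at h3
    have h4 := h3 0 α h2
    simp only [inner_zero_left, sub_zero, inner_self_eq_zero] at h4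
    rw [h4] at h3
    have h5 : ∀ a ∈ {ξ : E | ∃ α, (ξ, α) ∈ T}, ⟪a, ξ⟫_ℂ = 0 := by
      rintro a ⟨b, hab⟩
      have := h3 a b hab
      simpa using this
    exact hd.eq_zero_of_inner_right ℂ h5
  have hdR : DenseRange R := by
    have h1 : (LinearMap.range (R : E →ₗ[ℂ] E))ᗮ = ⊥ := by
      rw [Submodule.eq_bot_iff]
      intro v hv
      rw [Submodule.mem_orthogonal] at hv
      apply hinj
      have h2 := hv (R (R v)) ⟨R v, rfl⟩
      rw [hRsym] at h2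
      exact inner_self_eq_zero.1 h2
    have h2 := Submodule.topologicalClosure_eq_top_iff.2 h1
    have h3 : Dense ((LinearMap.range (R : E →ₗ[ℂ] E) : Submodule ℂ E) : Set E) :=
      Submodule.dense_iff_topologicalClosure_eq_top.2 h2
    exact h3
  have hspec : spectrum ℝ R ⊆ Set.Icc 0 1 := by
    have hpos : 0 ≤ R := by
      rw [ContinuousLinearMap.nonneg_iff_isPositive, ContinuousLinearMap.isPositive_def']
      refine ⟨hRsa, fun ξ => ?_⟩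
      rw [ContinuousLinearMap.reApplyInnerSelf_apply, hRin]
      have h1 : ⟪P (ι ξ), ι ξ⟫_ℂ = ⟪P (ι ξ), P (ι ξ)⟫_ℂ := by
        rw [hPsa, hPsa]
        have : P (P (ι ξ)) = P (ι ξ) :=
          Submodule.starProjection_eq_self_iff.2 (hPmem _)
        rw [this]
      rw [h1]
      exact inner_self_nonneg
    have hle : ‖R‖ ≤ 1 := by
      refine ContinuousLinearMap.opNorm_le_bound _ zero_le_one (fun ξ => ?_)
      have h3 : ‖ι ξ‖ = ‖ξ‖ := by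
        rw [hι]; simp
      have h4 : ‖P (ι ξ)‖ ≤ ‖ι ξ‖ := Submodule.norm_starProjection_apply_le T' _
      have h5 : ‖(P (ι ξ)).fst‖ ≤ ‖P (ι ξ)‖ := WithLp.norm_fst_le _ _
      rw [hRdef, one_mul, ← h3]
      exact h5.trans h4
    intro r hr
    constructor
    · exact spectrum_nonneg_of_nonneg hpos hr
    · have h1 := spectrum.norm_le_norm_mul_of_mem hr
      have h2 : ‖(1 : E →L[ℂ] E)‖ ≤ 1 := ContinuousLinearMap.norm_id_le
      have h3 : ‖R‖ * ‖(1 : E →L[ℂ] E)‖ ≤ 1 * 1 :=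
        mul_le_mul hle h2 (norm_nonneg _) zero_le_one
      rw [Real.norm_eq_abs] at h1
      linarith [le_abs_self r]
  exact ⟨R, hRsa, hspec, hdR, hΔ⟩

theorem exists_semigroup (T : Submodule ℂ (E × G)) (hc : IsClosed (T : Set (E × G)))
    (hd : Dense {ξ : E | ∃ α, (ξ, α) ∈ T}) : ∃ φ, IsSemigroupOf (lapGraph T) φ := by
  obtain ⟨R, hRsa, hspec, hdR, hΔ⟩ := exists_resolvent T hc hd
  exact semigroup_of_resolvent R hRsa hspec hdR _ hΔ

theorem dense_dom (T : Submodule ℂ (E × G)) (hc : IsClosed (T : Set (E × G)))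
    (hd : Dense {ξ : E | ∃ α, (ξ, α) ∈ T}) : Dense {ξ : E | ∃ ζ, (ξ, ζ) ∈ lapGraph T} := by
  obtain ⟨R, hRsa, hspec, hdR, hΔ⟩ := exists_resolvent T hc hd
  refine hdR.mono ?_
  rintro _ ⟨η, rfl⟩
  refine ⟨η - R η, ?_⟩
  rw [hΔ]
  simp

end Pool.Agent.H768R2.FQ
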