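import Pool.Agent.H768R2.FQ.Semi
import Pool.Agent.H768R2.FQ.Exist2

set_option autoImplicit false

open scoped InnerProductSpace Topology NNReal
open Filter Set

namespace Pool.Agent.H768R2.FQ

universe u

variable {E : Type u} [NormedAddCommGroup E] [InnerProductSpace ℂ E] [CompleteSpace E]
variable {G : Type u} [NormedAddCommGroup G] [InnerProductSpace ℂ G] [CompleteSpace G]

theorem IsSemigroupOf.apply_norm {Δ : Set (E × E)} {φ : ℝ≥0 → E →L[ℂ] E} (h : IsSemigroupOf Δ φ)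
    (t : ℝ≥0) (v : E) : ‖φ t v‖ ≤ ‖v‖ := by
  have := ((φ t).le_opNorm v).trans (mul_le_mul_of_nonneg_right (h.norm_le t) (norm_nonneg _))
  rwa [one_mul] at this

theorem IsSemigroupOf.comm {Δ : Set (E × E)} {φ : ℝ≥0 → E →L[ℂ] E} (h : IsSemigroupOf Δ φ)
    (s t : ℝ≥0) (v : E) : φ s (φ t v) = φ t (φ s v) := by
  have h1 : φ s * φ t = φ t * φ s := by rw [← h.add, ← h.add, add_comm]
  exact congrArg (fun A : E →L[ℂ] E => A v) h1

theorem IsSemigroupOf.dom {Δ : Set (E × E)} {φ : ℝ≥0 → E →L[ℂ] E} (h : IsSemigroupOf Δ φ)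
    {ξ ζ : E} (hu : (ξ, ζ) ∈ Δ) (t : ℝ≥0) : (φ t ξ, φ t ζ) ∈ Δ := by
  rw [h.gen]
  have h1 := ((φ t).continuous.tendsto ζ).comp ((h.gen ξ ζ).1 hu)
  refine h1.congr (fun s => ?_)
  show φ t ((s : ℝ)⁻¹ • (ξ - φ s ξ)) = _
  rw [← h.comm t s ξ, ← map_sub]
  exact ((φ t).restrictScalars ℝ).map_smul _ _

/-- continuity of the orbits -/
theorem IsSemigroupOf.cont_orbit {Δ : Set (E × E)} {φ : ℝ≥0 → E →L[ℂ] E} (h : IsSemigroupOf Δ φ)
    (ξ : E) : Continuous (fun t => φ t ξ) := by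
  rw [continuous_iff_continuousAt]
  intro t
  rw [Metric.continuousAt_iff]
  intro ε hε
  have h1 := Metric.tendsto_nhds.1 (h.cont ξ) ε hε
  rw [Metric.eventually_nhds_iff] at h1
  obtain ⟨δ, hδ, h2⟩ := h1
  refine ⟨δ, hδ, fun {s} hs => ?_⟩
  have key : ∀ a b : ℝ≥0, a ≤ b → dist b a < δ → dist (φ b ξ) (φ a ξ) < ε := by
    intro a b hab hd
    obtain ⟨c, rfl⟩ := exists_add_of_le hab
    have h3 : φ (a + c) ξ - φ a ξ = φ a (φ c ξ - ξ) := by
      rw [h.add, map_sub]; rfl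
    rw [dist_eq_norm, h3]
    refine (h.apply_norm a _).trans_lt ?_
    rw [← dist_eq_norm]
    apply h2
    rw [NNReal.dist_eq] at hd ⊢
    simpa using hd
  rcases le_total t s with hts | hts
  · exact key t s hts hs
  · rw [dist_comm] at hs ⊢
    exact key s t hts hs

/-- right derivative of the orbits -/
theorem IsSemigroupOf.deriv {Δ : Set (E × E)} {φ : ℝ≥0 → E →L[ℂ] E} (h : IsSemigroupOf Δ φ)
    {ξ ζ : E} (hu : (ξ, ζ) ∈ Δ) (t : ℝ) (ht : 0 ≤ t) :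
    HasDerivWithinAt (fun s : ℝ => φ s.toNNReal ξ) (-(φ t.toNNReal ζ)) (Ici t) t := by
  rw [hasDerivWithinAt_iff_tendsto_slope, Set.Ici_sdiff_left]
  have h1 := (h.gen _ _).1 (h.dom hu t.toNNReal)
  have h2 : Tendsto (fun s : ℝ => (s - t).toNNReal) (𝓝[>] t) (𝓝[>] 0) := by
    rw [tendsto_nhdsWithin_iff]
    constructor
    · have : Tendsto (fun s : ℝ => (s - t).toNNReal) (𝓝 t) (𝓝 (t - t).toNNReal) :=
        ((continuous_real_toNNReal.comp (continuous_id.sub continuous_const)).tendsto t)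
      rw [sub_self, Real.toNNReal_zero] at this
      exact this.mono_left nhdsWithin_le_nhds
    · filter_upwards [self_mem_nhdsWithin] with s hs
      exact Real.toNNReal_pos.2 (sub_pos.2 hs)
  have h3 := (h1.comp h2).neg
  refine h3.congr' ?_
  filter_upwards [self_mem_nhdsWithin] with s hs
  have hs' : t < s := hs
  have h4 : s.toNNReal = t.toNNReal + (s - t).toNNReal := by
    rw [← Real.toNNReal_add ht (sub_nonneg.2 hs'.le)]
    congr 1; ring
  show -((((s - t).toNNReal : ℝ≥0) : ℝ)⁻¹ • (φ t.toNNReal ξ - φ (s - t).toNNReal (φ t.toNNReal ξ))) =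
    slope (fun s : ℝ => φ s.toNNReal ξ) t s
  rw [slope_def_module, h4, h.add, Real.coe_toNNReal _ (sub_nonneg.2 hs'.le), ← smul_neg, neg_sub]
  congr 2
  exact h.comm _ _ _

omit [CompleteSpace E] [CompleteSpace G] in
theorem lap_re_nonneg (T : Submodule ℂ (E × G)) {ξ ζ : E} (h : (ξ, ζ) ∈ lapGraph T) :
    0 ≤ (⟪ξ, ζ⟫_ℂ).re := by
  obtain ⟨α, h3, h4⟩ := h
  rw [Submodule.mem_adjoint_iff] at h4
  have h5 := sub_eq_zero.1 (h4 ξ α h3)
  simp only at h5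
  rw [← h5, inner_self_eq_norm_sq_to_K]
  norm_cast
  exact sq_nonneg _

omit [CompleteSpace G] in
theorem semigroup_unique (T : Submodule ℂ (E × G)) (hd : Dense {ξ : E | ∃ ζ, (ξ, ζ) ∈ lapGraph T})
    {φ ψ : ℝ≥0 → E →L[ℂ] E} (h : IsSemigroupOf (lapGraph T) φ) (h' : IsSemigroupOf (lapGraph T) ψ) :
    φ = ψ := by
  have key : ∀ ξ ζ, (ξ, ζ) ∈ lapGraph T → ∀ t : ℝ, 0 ≤ t → φ t.toNNReal ξ = ψ t.toNNReal ξ := by
    intro ξ ζ hu t ht
    let F : ℝ → E := fun s => φ s.toNNReal ξ - ψ s.toNNReal ξ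
    let f : ℝ → ℝ := fun s => ‖F s‖ ^ 2
    have hF : Continuous F := ((h.cont_orbit ξ).comp continuous_real_toNNReal).sub
      ((h'.cont_orbit ξ).comp continuous_real_toNNReal)
    have hf : ContinuousOn f (Icc 0 t) := (hF.norm.pow 2).continuousOn
    have hF' : ∀ s ∈ Ico 0 t, HasDerivWithinAt F
        (-(φ s.toNNReal ζ) - -(ψ s.toNNReal ζ)) (Ici s) s := fun s hs =>
      (h.deriv hu s hs.1).sub (h'.deriv hu s hs.1)
    have hf' : ∀ s ∈ Ico 0 t, HasDerivWithinAt f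
        (2 * (⟪F s, -(φ s.toNNReal ζ) - -(ψ s.toNNReal ζ)⟫_ℂ).re) (Ici s) s := by
      intro s hs
      let _ : InnerProductSpace ℝ E := InnerProductSpace.rclikeToReal ℂ E
      have h1 := (hF' s hs).norm_sq
      convert h1 using 1
      rfl
    have hle : ∀ s ∈ Ico 0 t, 2 * (⟪F s, -(φ s.toNNReal ζ) - -(ψ s.toNNReal ζ)⟫_ℂ).re ≤ 0 := by
      intro s hs
      have h1 := lap_re_nonneg T (lap_sub T (h.dom hu s.toNNReal) (h'.dom hu s.toNNReal))
      have h2 : -(φ s.toNNReal ζ) - -(ψ s.toNNReal ζ) = -(φ s.toNNReal ζ - ψ s.toNNReal ζ) := by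
        abel
      rw [h2, inner_neg_right, Complex.neg_re]
      have h3 : 0 ≤ (⟪F s, φ s.toNNReal ζ - ψ s.toNNReal ζ⟫_ℂ).re := h1
      linarith
    have h0 : f 0 ≤ 0 := by
      show ‖φ (0 : ℝ).toNNReal ξ - ψ (0 : ℝ).toNNReal ξ‖ ^ 2 ≤ 0
      rw [Real.toNNReal_zero, h.zero, h'.zero, sub_self, norm_zero]
      norm_num
    have h1 := image_le_of_deriv_right_le_deriv_boundary hf hf' (B := fun _ => (0 : ℝ))
      (B' := fun _ => (0 : ℝ)) h0 continuousOn_const (fun s _ => hasDerivWithinAt_const _ _ _) hle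
      ⟨ht, le_rfl⟩
    have h2 : ‖F t‖ ^ 2 ≤ 0 := h1
    have h3 : ‖F t‖ = 0 := by nlinarith [norm_nonneg (F t), sq_nonneg ‖F t‖]
    exact sub_eq_zero.1 (norm_eq_zero.1 h3)
  funext t
  apply ContinuousLinearMap.ext
  intro v
  have h1 : Set.EqOn (φ t) (ψ t) {ξ : E | ∃ ζ, (ξ, ζ) ∈ lapGraph T} := by
    rintro ξ ⟨ζ, hu⟩
    have := key ξ ζ hu t t.2
    rwa [Real.toNNReal_coe] at this
  exact congrFun (Continuous.ext_on hd (φ t).continuous (ψ t).continuous h1) v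

end Pool.Agent.H768R2.FQ
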