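import Pool.Agent.H768R2.FQ.Core
import Pool.Agent.H768R2.FQ.Dens
import Pool.Agent.H768R2.FQ.Unique

set_option autoImplicit false

open scoped InnerProductSpace TensorProduct Topology NNReal
open Filter

namespace Pool.Agent.H768R2.FQ

universe u

variable {K : Type u} [NormedAddCommGroup K] [InnerProductSpace ℂ K] [CompleteSpace K]

theorem concrete_main {N : VonNeumannAlgebra K} (σ : TraceState N) {m : ℕ} (hm : 0 < m)
    (x : Fin m → Elt N) (hsa : ∀ i, star (x i) = x i)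
    (hN : ∀ e : K →L[ℂ] K, (∀ i, (x i : K →L[ℂ] K) * e = e * (x i : K →L[ℂ] K)) →
      ∀ y ∈ N, e * y = y * e)
    (hF : FiniteFisher σ x)
    (T : Submodule ℂ (L2 σ × PiLp 2 (fun _ : Fin m => L2T σ)))
    (hT : IsClosedGradient σ x T) :
    (∃! φ, IsSemigroupOf (lapGraph T) φ) ∧
      ∀ φ, IsSemigroupOf (lapGraph T) φ →
        ∃ c : ℝ, 0 < c ∧ ∀ t : ℝ≥0, 0 < t → c ≤ unifDist σ φ t := by
  have hd : Dense {ξ : L2 σ | ∃ α, (ξ, α) ∈ T} := by
    refine (dense_mono σ x hsa hN).mono ?_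
    rintro _ ⟨p, hp, rfl⟩
    have hp' : p ∈ Submodule.span ℂ (Set.range (mono x)) := hp
    show ∃ α, (hat σ p, α) ∈ T
    induction hp' using Submodule.span_induction with
    | mem v hv =>
      obtain ⟨w, rfl⟩ := hv
      exact ⟨_, hT.extends_grad (Submodule.subset_span ⟨w, rfl⟩)⟩
    | zero =>
      refine ⟨0, ?_⟩
      have : hat σ 0 = 0 := by
        have := hat_smul σ 0 1
        simpa using this
      rw [this]
      exact T.zero_mem
    | add v w h1 h2 h3 h4 =>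
      obtain ⟨α, hα⟩ := h3 h1
      obtain ⟨β, hβ⟩ := h4 h2
      refine ⟨α + β, ?_⟩
      rw [hat_add]
      exact T.add_mem hα hβ
    | smul c v h1 h2 =>
      obtain ⟨α, hα⟩ := h2 h1
      refine ⟨c • α, ?_⟩
      rw [hat_smul]
      exact T.smul_mem c hα
  refine ⟨?_, fun φ hφ => ?_⟩
  · obtain ⟨φ, hφ⟩ := exists_semigroup T hT.closed hd
    exact ⟨φ, hφ, fun ψ hψ => semigroup_unique T (dense_dom T hT.closed hd) hψ hφ⟩
  · obtain ⟨J, hJ⟩ := hF ⟨0, hm⟩
    exact exists_lower_bound ⟨0, hm⟩ (hsa _) J hJ T hT φ hφ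

end Pool.Agent.H768R2.FQ
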