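import Pool.Agent.H768R2.FQ.Grad

set_option autoImplicit false

open scoped InnerProductSpace TensorProduct Topology NNReal
open Filter Complex

namespace Pool.Agent.H768R2.FQ

universe u

variable {K : Type u} [NormedAddCommGroup K] [InnerProductSpace ℂ K] [CompleteSpace K]
variable {N : VonNeumannAlgebra K} (τ : TraceState N)
variable {m : ℕ} (x : Fin m → Elt N)

/-- `ζ = ∂_i*(a ⊗ b)` -/
def Adj (i : Fin m) (a b : Elt N) (ζ : L2 τ) : Prop :=
  ∀ ξ α, (ξ, α) ∈ (fdqGraph τ x i).topologicalClosure →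
    ⟪α, tens τ (hat τ a) (hat τ b)⟫_ℂ = ⟪ξ, ζ⟫_ℂ

theorem adj_of_conj (i : Fin m) (J : L2 τ)
    (h : (tens τ (hat τ 1) (hat τ 1), J) ∈ (fdqGraph τ x i).adjoint) : Adj τ x i 1 1 J := by
  intro ξ α hv
  rw [Submodule.mem_adjoint_iff] at h
  have hcl : IsClosed {v : L2 τ × L2T τ | ⟪v.2, tens τ (hat τ 1) (hat τ 1)⟫_ℂ = ⟪v.1, J⟫_ℂ} :=
    isClosed_eq (by fun_prop) (by fun_prop)
  have hsub : ((fdqGraph τ x i : Submodule ℂ (L2 τ × L2T τ)) : Set (L2 τ × L2T τ)) ⊆
      {v : L2 τ × L2T τ | ⟪v.2, tens τ (hat τ 1) (hat τ 1)⟫_ℂ = ⟪v.1, J⟫_ℂ} := by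
    rintro ⟨a, b⟩ hab
    exact sub_eq_zero.1 (h a b hab)
  exact closure_minimal hsub hcl hv

theorem Adj.sub_smul {i : Fin m} {a b b' : Elt N} {ζ ζ' : L2 τ} (h : Adj τ x i a b ζ)
    (h' : Adj τ x i a b' ζ') (c : ℂ) : Adj τ x i a (b - c • b') (ζ - c • ζ') := by
  intro ξ α hv
  rw [hat_sub, hat_smul, tens_sub_right, tens_smul_right, inner_sub_right, inner_sub_right,
    inner_smul_right, inner_smul_right, h ξ α hv, h' ξ α hv]

theorem Adj.sub_smul_left {i : Fin m} {a a' b : Elt N} {ζ ζ' : L2 τ} (h : Adj τ x i a b ζ)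
    (h' : Adj τ x i a' b ζ') (c : ℂ) : Adj τ x i (a - c • a') b (ζ - c • ζ') := by
  intro ξ α hv
  rw [hat_sub, hat_smul, tens_sub_left, tens_smul_left, inner_sub_right, inner_sub_right,
    inner_smul_right, inner_smul_right, h ξ α hv, h' ξ α hv]

/-- `r` is the resolvent `(y + i)⁻¹` of the self-adjoint element `y` -/
structure Res (y r : Elt N) : Prop where
  sa : star y = y
  left : r * (y + I • 1) = 1
  right : (y + I • 1) * r = 1

theorem star_yI {y : Elt N} (h : star y = y) : star (y + I • (1 : Elt N)) = y + (-I) • (1 : Elt N) := by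
  rw [star_add, h, star_smul, star_one]
  congr 2
  exact conj_I

theorem Res.left' {y r : Elt N} (h : Res y r) : star r * (y + (-I) • 1) = 1 := by
  rw [← star_yI h.sa, ← star_mul, h.right, star_one]

theorem Res.right' {y r : Elt N} (h : Res y r) : (y + (-I) • 1) * star r = 1 := by
  rw [← star_yI h.sa, ← star_mul, h.left, star_one]

theorem Res.e1 {y r : Elt N} (h : Res y r) : star r - r = (2 * I) • (star r * r) := by
  have h1 : star r * ((y + I • 1) - (y + (-I) • 1)) * r = star r - r := by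
    rw [mul_sub, sub_mul, h.left', mul_assoc, h.right, mul_one, one_mul]
  rw [← h1]
  have h2 : (y + I • 1) - (y + (-I) • 1) = (2 * I) • (1 : Elt N) := by module
  rw [h2, mul_smul_comm, mul_one, smul_mul_assoc]

theorem Res.e2 {y r : Elt N} (h : Res y r) : star r - r = (2 * I) • (r * star r) := by
  have h1 : r * ((y + I • 1) - (y + (-I) • 1)) * star r = star r - r := by
    rw [mul_sub, sub_mul, h.left, mul_assoc, h.right', mul_one, one_mul]
  rw [← h1]
  have h2 : (y + I • 1) - (y + (-I) • 1) = (2 * I) • (1 : Elt N) := by module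
  rw [h2, mul_smul_comm, mul_one, smul_mul_assoc]

theorem Res.normal {y r : Elt N} (h : Res y r) : star r * r = r * star r := by
  have h1 := h.e1.symm.trans h.e2
  have h2 : (2 * I : ℂ) ≠ 0 := mul_ne_zero two_ne_zero I_ne_zero
  exact smul_right_injective _ h2 h1

/-- the Cayley transform -/
noncomputable def cay (r : Elt N) : Elt N := 1 - (2 * I) • r

theorem star_cay (r : Elt N) : star (cay r) = 1 + (2 * I) • star r := by
  rw [cay, star_sub, star_one, star_smul]
  have : star (2 * I) = -(2 * I) := by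
    rw [star_mul', Complex.star_def, conj_I, map_ofNat]; ring
  rw [this, neg_smul, sub_neg_eq_add]

theorem Res.cay_star_mul {y r : Elt N} (h : Res y r) : star (cay r) * cay r = 1 := by
  rw [star_cay, cay, add_mul, mul_sub, mul_sub, one_mul, one_mul, mul_one]
  have h1 := h.e1
  have h2 : (2 * I) • star r * (2 * I) • r = (2 * I) • (star r - r) := by
    rw [h1, smul_mul_assoc, mul_smul_comm]
  rw [h2]
  module

theorem Res.cay_mul_star {y r : Elt N} (h : Res y r) : cay r * star (cay r) = 1 := by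
  rw [star_cay, cay, sub_mul, mul_add, mul_add, one_mul, one_mul, mul_one]
  have h1 := h.e2
  have h2 : (2 * I) • r * (2 * I) • star r = (2 * I) • (star r - r) := by
    rw [h1, smul_mul_assoc, mul_smul_comm]
  rw [h2]
  module

theorem Res.cay_mul {y r : Elt N} (h : Res y r) : cay r * star r = r := by
  rw [cay, sub_mul, one_mul, smul_mul_assoc, ← h.e2]
  abel

theorem Res.mul_cay {y r : Elt N} (h : Res y r) : star r * cay r = r := by
  rw [cay, mul_sub, mul_one, mul_smul_comm, ← h.e1]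
  abel

variable {τ x}

/-- `∂_i*(a ⊗ b r)` -/
theorem Adj.right_r {i : Fin m} {d : ℝ} {a b r : Elt N} {ζ : L2 τ} (h : Adj τ x i a b ζ)
    (hr : Res ((d : ℂ) • x i) r)
    (hd : ‖(((d : ℂ) • x i : Elt N) : K →L[ℂ] K)‖ + ‖(d : ℂ)‖ ≤ 1 / 2) :
    Adj τ x i a (b * r) (rmul τ r ζ + ((d : ℂ) * τ.toFun (r * b)) • hat τ (a * r)) := by
  intro ξ α hv
  have h1 := right_resolvent_mem τ x i (d : ℂ) (-I) (by rw [norm_neg, norm_I]) hd (star r)
    hr.left' ξ α hv
  have h2 := h _ _ h1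
  rw [inner_sub_left, rmulT_inner, star_star, rmulT_tens, rmul_hat, inner_smul_left, tens_inner,
    rmul_inner, rmul_inner, star_star, rmul_hat, hat_inner, star_star, conj_ofReal] at h2
  rw [inner_add_right, inner_smul_right, ← h2]
  ring

/-- `∂_i*(r a ⊗ b)` -/
theorem Adj.left_r {i : Fin m} {d : ℝ} {a b r : Elt N} {ζ : L2 τ} (h : Adj τ x i a b ζ)
    (hr : Res ((d : ℂ) • x i) r)
    (hd : ‖(((d : ℂ) • x i : Elt N) : K →L[ℂ] K)‖ + ‖(d : ℂ)‖ ≤ 1 / 2) :
    Adj τ x i (r * a) b (lmul τ r ζ + ((d : ℂ) * τ.toFun (r * a)) • hat τ (r * b)) := by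
  intro ξ α hv
  have h1 := left_resolvent_mem τ x i (d : ℂ) (-I) (by rw [norm_neg, norm_I]) hd (star r)
    hr.right' ξ α hv
  have h2 := h _ _ h1
  rw [inner_sub_left, lmulT_inner, star_star, lmulT_tens, lmul_hat, inner_smul_left, tens_inner,
    lmul_inner, lmul_inner, star_star, lmul_hat, hat_inner, star_star, conj_ofReal] at h2
  rw [inner_add_right, inner_smul_right, ← h2]
  ring

/-- `∂_i*(a ⊗ b w)` -/
theorem Adj.right_w {i : Fin m} {d : ℝ} {a b r : Elt N} {ζ : L2 τ} (h : Adj τ x i a b ζ)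
    (hr : Res ((d : ℂ) • x i) r)
    (hd : ‖(((d : ℂ) • x i : Elt N) : K →L[ℂ] K)‖ + ‖(d : ℂ)‖ ≤ 1 / 2) :
    Adj τ x i a (b * cay r)
      (rmul τ (cay r) ζ - (2 * I * d * τ.toFun (r * b)) • hat τ (a * r)) := by
  have h1 := h.sub_smul τ x (h.right_r hr hd) (2 * I)
  have h2 : b * cay r = b - (2 * I) • (b * r) := by
    rw [cay, mul_sub, mul_one, mul_smul_comm]
  have h3 : rmul τ (cay r) ζ = ζ - (2 * I) • rmul τ r ζ := by
    have : cay r = 1 + (-(2 * I)) • r := by rw [cay, neg_smul, sub_eq_add_neg]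
    rw [this, rmul_add, rmul_smul, rmul_one, neg_smul, sub_eq_add_neg]
  rw [h2, h3]
  convert h1 using 1
  module

/-- `∂_i*(w a ⊗ b)` -/
theorem Adj.left_w {i : Fin m} {d : ℝ} {a b r : Elt N} {ζ : L2 τ} (h : Adj τ x i a b ζ)
    (hr : Res ((d : ℂ) • x i) r)
    (hd : ‖(((d : ℂ) • x i : Elt N) : K →L[ℂ] K)‖ + ‖(d : ℂ)‖ ≤ 1 / 2) :
    Adj τ x i (cay r * a) b
      (lmul τ (cay r) ζ - (2 * I * d * τ.toFun (r * a)) • hat τ (r * b)) := by
  have h1 := h.sub_smul_left τ x (h.left_r hr hd) (2 * I)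
  have h2 : cay r * a = a - (2 * I) • (r * a) := by
    rw [cay, sub_mul, one_mul, smul_mul_assoc]
  have h3 : lmul τ (cay r) ζ = ζ - (2 * I) • lmul τ r ζ := by
    have : cay r = 1 + (-(2 * I)) • r := by rw [cay, neg_smul, sub_eq_add_neg]
    rw [this, lmul_add, lmul_smul, lmul_one, neg_smul, sub_eq_add_neg]
  rw [h2, h3]
  convert h1 using 1
  module

end Pool.Agent.H768R2.FQ
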