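import Pool.Agent.H768R2.FQ.Defs

set_option autoImplicit false

open scoped InnerProductSpace Topology NNReal
open Filter

namespace Pool.Agent.H768R2.FQ

universe u

variable {E : Type u} [NormedAddCommGroup E] [InnerProductSpace ℂ E] [CompleteSpace E]
variable {G : Type u} [NormedAddCommGroup G] [InnerProductSpace ℂ G] [CompleteSpace G]

theorem IsSemigroupOf.pow {Δ : Set (E × E)} {φ : ℝ≥0 → E →L[ℂ] E} (h : IsSemigroupOf Δ φ)
    (t : ℝ≥0) (n : ℕ) : φ (n * t) = φ t ^ n := by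
  induction n with
  | zero => simp [h.zero]
  | succ n ih =>
    rw [Nat.cast_succ, add_mul, one_mul, h.add, ih, pow_succ]

/-- the crucial upper bound -/
theorem IsSemigroupOf.key {Δ : Set (E × E)} {φ : ℝ≥0 → E →L[ℂ] E} (h : IsSemigroupOf Δ φ)
    {u ζ : E} (hu : (u, ζ) ∈ Δ) (t : ℝ≥0) (ht : 0 < t) :
    (t : ℝ) * (⟪φ t u, ζ⟫_ℂ).re ≤ ‖u‖ ^ 2 := by
  have hg := (h.gen u ζ).1 hu
  -- discrete version
  have hd : ∀ n : ℕ, 0 < n → (t : ℝ) *
      (⟪φ t u, ((t / n : ℝ≥0) : ℝ)⁻¹ • (u - φ (t / n) u)⟫_ℂ).re ≤ ‖u‖ ^ 2 := by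
    intro n hn
    set s : ℝ≥0 := t / n / 2 with hs
    have hn' : (n : ℝ≥0) ≠ 0 := by exact_mod_cast hn.ne'
    have hss : t / n = s + s := by rw [hs]; field_simp; norm_num
    set B := φ s with hB
    have hBs : ∀ v w, ⟪B v, w⟫_ℂ = ⟪v, B w⟫_ℂ := by
      intro v w
      have := h.selfAdjoint s
      rw [← ContinuousLinearMap.adjoint_inner_right, ← ContinuousLinearMap.star_eq_adjoint,
        this.star_eq]
    have hA : φ (t / n) = B * B := by rw [hss, h.add]
    have ht' : φ t = (B * B) ^ n := by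
      rw [← hA, ← h.pow]
      congr 1
      field_simp
    let a : ℕ → ℝ := fun k => (⟪((B * B) ^ k) u, u - (B * B) u⟫_ℂ).re
    have hBk : ∀ k : ℕ, (B * B) ^ k = B ^ k * B ^ k := by
      intro k
      rw [← pow_add, ← two_mul, pow_mul, pow_two]
    have hBks : ∀ (k : ℕ) v w, ⟪(B ^ k) v, w⟫_ℂ = ⟪v, (B ^ k) w⟫_ℂ := by
      intro k
      induction k with
      | zero => intro v w; simp
      | succ k ih =>
        intro v w
        rw [pow_succ']
        show ⟪B ((B ^ k) v), w⟫_ℂ = ⟪v, (B * B ^ k) w⟫_ℂ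
        rw [hBs, ih, ← pow_succ', pow_succ]
        rfl
    have hdec : ∀ k, a (k + 1) ≤ a k := by
      intro k
      have h1 : a k - a (k + 1) = ‖(B ^ k) (u - (B * B) u)‖ ^ 2 := by
        have h2 : ‖(B ^ k) (u - (B * B) u)‖ ^ 2 =
            (⟪(B ^ k) (u - (B * B) u), (B ^ k) (u - (B * B) u)⟫_ℂ).re := by
          rw [inner_self_eq_norm_sq_to_K]
          norm_cast
        rw [h2, hBks, ← mul_apply_eq_comp, ← hBk]
        show (⟪((B * B) ^ k) u, u - (B * B) u⟫_ℂ).re - (⟪((B * B) ^ (k + 1)) u, u - (B * B) u⟫_ℂ).re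
          = _
        rw [← Complex.sub_re, ← inner_sub_left]
        have h3 : ((B * B) ^ k) u - ((B * B) ^ (k + 1)) u = ((B * B) ^ k) (u - (B * B) u) := by
          rw [pow_succ, map_sub]
          rfl
        rw [h3, hBk, mul_apply_eq_comp, hBks, mul_apply_eq_comp, hBks]
      nlinarith [sq_nonneg ‖(B ^ k) (u - (B * B) u)‖]
    have hmono : ∀ k, k ≤ n → a n ≤ a k := by
      intro k hk
      exact (antitone_nat_of_succ_le hdec) hk
    have htel : ∑ k ∈ Finset.range n, a k = (⟪u, u⟫_ℂ).re - (⟪((B * B) ^ n) u, u⟫_ℂ).re := by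
      have h4 : ∀ k, a k = (⟪((B * B) ^ k) u, u⟫_ℂ).re - (⟪((B * B) ^ (k + 1)) u, u⟫_ℂ).re := by
        intro k
        show (⟪((B * B) ^ k) u, u - (B * B) u⟫_ℂ).re = _
        rw [inner_sub_right, Complex.sub_re]
        congr 2
        rw [mul_apply_eq_comp, ← hBs, ← hBs, pow_succ']
        rfl
      rw [Finset.sum_congr rfl (fun k _ => h4 k), Finset.sum_range_sub']
      simp
    have hsum : (n : ℝ) * a n ≤ ‖u‖ ^ 2 := by
      have h5 : ∑ k ∈ Finset.range n, a n ≤ ∑ k ∈ Finset.range n, a k :=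
        Finset.sum_le_sum (fun k hk => hmono k (Finset.mem_range.1 hk).le)
      rw [Finset.sum_const, Finset.card_range, nsmul_eq_mul, htel] at h5
      have h6 : (⟪u, u⟫_ℂ).re = ‖u‖ ^ 2 := by
        rw [inner_self_eq_norm_sq_to_K]; norm_cast
      have h7 : 0 ≤ (⟪((B * B) ^ n) u, u⟫_ℂ).re := by
        rw [hBk, mul_apply_eq_comp, hBks, inner_self_eq_norm_sq_to_K]
        norm_cast
        exact sq_nonneg _
      linarith
    have h8 : ((t / n : ℝ≥0) : ℝ)⁻¹ = (n : ℝ) / t := by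
      push_cast
      rw [inv_div]
    rw [h8, hA, ht', inner_smul_right_eq_smul, Complex.real_smul, Complex.re_ofReal_mul]
    have h9 : (t : ℝ) ≠ 0 := by exact_mod_cast ht.ne'
    have h10 : (t : ℝ) * ((n : ℝ) / t * (⟪((B * B) ^ n) u, u - (B * B) u⟫_ℂ).re) = n * a n := by
      show _ = (n : ℝ) * (⟪((B * B) ^ n) u, u - (B * B) u⟫_ℂ).re
      field_simp
    rw [h10]
    exact hsum
  have hlim : Tendsto (fun n : ℕ => t / (n : ℝ≥0)) atTop (𝓝[>] 0) := by
    rw [tendsto_nhdsWithin_iff]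
    constructor
    · have := tendsto_const_div_atTop_nhds_zero_nat (t : ℝ)
      rw [← NNReal.tendsto_coe]
      simpa using this
    · filter_upwards [eventually_gt_atTop 0] with n hn
      have : (0 : ℝ≥0) < n := by exact_mod_cast hn
      exact div_pos ht this
  have h1 := hg.comp hlim
  have h2 : Tendsto (fun n : ℕ => (t : ℝ) *
      (⟪φ t u, ((t / n : ℝ≥0) : ℝ)⁻¹ • (u - φ (t / n) u)⟫_ℂ).re) atTop
      (𝓝 ((t : ℝ) * (⟪φ t u, ζ⟫_ℂ).re)) := by
    refine Tendsto.const_mul _ ?_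
    exact (Complex.continuous_re.tendsto _).comp (tendsto_const_nhds.inner h1)
  refine le_of_tendsto h2 ?_
  filter_upwards [eventually_gt_atTop 0] with n hn
  exact hd n hn

end Pool.Agent.H768R2.FQ
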