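import Pool.Agent.H768R2.FQ.Est
import Pool.Agent.H768R2.FQ.Semi

set_option autoImplicit false

open scoped InnerProductSpace TensorProduct Topology NNReal
open Filter Complex

namespace Pool.Agent.H768R2.FQ

universe u

variable {K : Type u} [NormedAddCommGroup K] [InnerProductSpace ℂ K] [CompleteSpace K]
variable {N : VonNeumannAlgebra K} {τ : TraceState N}
variable {m : ℕ} {x : Fin m → Elt N}

theorem Res.unitary {y r : Elt N} (h : Res y r) : cay r ∈ unitary (Elt N) :=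
  Unitary.mem_iff.2 ⟨h.cay_star_mul, h.cay_mul_star⟩

theorem Res.pow_star_mul {y r : Elt N} (h : Res y r) (j : ℕ) :
    star (cay r ^ j) * cay r ^ j = 1 :=
  (Unitary.mem_iff.1 (pow_mem h.unitary j)).1

theorem exists_res (y : Elt N) (hy : star y = y) (hn : ‖(y : K →L[ℂ] K)‖ ≤ 1 / 2) :
    ∃ r : Elt N, Res y r := by
  have h1 : ‖I • (y : K →L[ℂ] K)‖ < 1 := by
    rw [norm_smul, norm_I, one_mul]; linarith
  let u : (K →L[ℂ] K)ˣ := Units.oneSub (I • (y : K →L[ℂ] K)) h1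
  have hu : (u : K →L[ℂ] K) = 1 - I • (y : K →L[ℂ] K) := rfl
  let r₀ : K →L[ℂ] K := (-I) • (↑u⁻¹ : K →L[ℂ] K)
  have hr₀ : r₀ ∈ N := by
    have hmem : r₀ ∈ Set.centralizer (Set.centralizer (N : Set (K →L[ℂ] K))) := by
      rw [Set.mem_centralizer_iff]
      intro z hz
      have hzy : Commute z (y : K →L[ℂ] K) := (hz (y : K →L[ℂ] K) y.2).symm
      have h2 : Commute z (u : K →L[ℂ] K) := by
        rw [hu]
        exact (Commute.one_right z).sub_right (hzy.smul_right I)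
      have h3 : Commute z (↑u⁻¹ : K →L[ℂ] K) := h2.units_inv_right
      exact (h3.smul_right (-I))
    rw [VonNeumannAlgebra.centralizer_centralizer] at hmem
    exact hmem
  have hI : (-I) * I = 1 := by rw [neg_mul, I_mul_I, neg_neg]
  have hyI : (y : K →L[ℂ] K) + I • 1 = I • (u : K →L[ℂ] K) := by
    rw [hu, smul_sub, smul_smul, I_mul_I, neg_one_smul, sub_neg_eq_add, add_comm]
  refine ⟨⟨r₀, hr₀⟩, hy, ?_, ?_⟩
  · apply Subtype.ext
    show r₀ * ((y : K →L[ℂ] K) + I • 1) = 1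
    rw [hyI, smul_mul_smul_comm, hI, one_smul, Units.inv_mul]
  · apply Subtype.ext
    show ((y : K →L[ℂ] K) + I • 1) * r₀ = 1
    rw [hyI, smul_mul_smul_comm, mul_comm I, hI, one_smul, Units.mul_inv]

variable (τ) in
/-- `∂_i (w^n)` -/
noncomputable def alpha (d : ℝ) (r : Elt N) (n : ℕ) : L2T τ :=
  ∑ j ∈ Finset.range n, (2 * I * (d : ℂ)) •
    tens τ (hat τ (cay r ^ j * r)) (hat τ (r * cay r ^ (n - 1 - j)))

theorem alpha_succ (d : ℝ) (r : Elt N) (n : ℕ) : alpha τ d r (n + 1) =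
    rmulT τ (cay r) (alpha τ d r n) +
      (2 * I * (d : ℂ)) • tens τ (hat τ (cay r ^ n * r)) (hat τ r) := by
  rw [alpha, Finset.sum_range_succ, alpha, map_sum]
  congr 1
  · apply Finset.sum_congr rfl
    intro j hj
    have hj' : j < n := Finset.mem_range.1 hj
    rw [map_smul, rmulT_tens, rmul_hat, mul_assoc r, ← pow_succ,
      show n + 1 - 1 - j = n - 1 - j + 1 by omega]
  · simp

theorem gradI_w {i : Fin m} {d : ℝ} {r : Elt N} (hr : Res ((d : ℂ) • x i) r)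
    (hd : ‖(((d : ℂ) • x i : Elt N) : K →L[ℂ] K)‖ + ‖(d : ℂ)‖ ≤ 1 / 2) {ξ : L2 τ} {α : L2T τ}
    (h : (ξ, α) ∈ gradI τ x i) :
    (rmul τ (cay r) ξ, rmulT τ (cay r) α + (2 * I * (d : ℂ)) • tens τ (rmul τ r ξ) (hat τ r)) ∈
      gradI τ x i := by
  have h1 := gradI_resolvent τ x i (d : ℂ) I norm_I hd r hr.left ξ α h
  have h2 := Submodule.sub_mem _ h (Submodule.smul_mem _ (2 * I) h1)
  have e : cay r = 1 + (-(2 * I)) • r := by rw [cay, neg_smul, sub_eq_add_neg]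
  have e1 : rmul τ (cay r) ξ = ξ - (2 * I) • rmul τ r ξ := by
    rw [e, rmul_add, rmul_smul, rmul_one, neg_smul, sub_eq_add_neg]
  have e2 : rmulT τ (cay r) α = α - (2 * I) • rmulT τ r α := by
    rw [e, rmulT_add, rmulT_smul, rmulT_one, neg_smul, sub_eq_add_neg]
  rw [e1, e2]
  convert h2 using 1
  apply Prod.ext
  · rfl
  · show α - (2 * I) • rmulT τ r α + (2 * I * (d : ℂ)) • tens τ (rmul τ r ξ) (hat τ r) =
      α - (2 * I) • (rmulT τ r α - (d : ℂ) • tens τ (rmul τ r ξ) (hat τ r))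
    module

theorem alpha_mem {i : Fin m} {d : ℝ} {r : Elt N} (hr : Res ((d : ℂ) • x i) r)
    (hd : ‖(((d : ℂ) • x i : Elt N) : K →L[ℂ] K)‖ + ‖(d : ℂ)‖ ≤ 1 / 2) (n : ℕ) :
    (hat τ (cay r ^ n), alpha τ d r n) ∈ gradI τ x i := by
  induction n with
  | zero =>
    have : alpha τ d r 0 = 0 := by simp [alpha]
    rw [this, pow_zero]
    exact gradI_one τ x i
  | succ n ih =>
    have h1 := gradI_w hr hd ih
    rw [rmul_hat, rmul_hat, ← pow_succ] at h1
    rw [alpha_succ]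
    exact h1

theorem rmulT_cay_norm {y r : Elt N} (h : Res y r) (z : L2T τ) : ‖rmulT τ (cay r) z‖ = ‖z‖ := by
  have e1 := inner_self_eq_norm_sq_to_K (𝕜 := ℂ) (rmulT τ (cay r) z)
  have e2 := inner_self_eq_norm_sq_to_K (𝕜 := ℂ) z
  rw [rmulT_inner, ← rmulT_mul, h.cay_mul_star, rmulT_one] at e1
  have e3 : ((‖rmulT τ (cay r) z‖ : ℝ) : ℂ) ^ 2 = ((‖z‖ : ℝ) : ℂ) ^ 2 := e1.symm.trans e2
  have e4 : ‖rmulT τ (cay r) z‖ ^ 2 = ‖z‖ ^ 2 := by exact_mod_cast e3
  exact (pow_left_inj₀ (norm_nonneg _) (norm_nonneg _) two_ne_zero).1 e4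

theorem hat_pow_mul_norm {y r : Elt N} (h : Res y r) (n : ℕ) :
    ‖hat τ (cay r ^ n * r)‖ = ‖hat τ r‖ := by
  have e1 : τ.toFun (star (cay r ^ n * r) * (cay r ^ n * r)) = τ.toFun (star r * r) := by
    rw [star_mul, mul_assoc, ← mul_assoc (star (cay r ^ n)), h.pow_star_mul, one_mul]
  rw [hat_norm_sq', hat_norm_sq'] at e1
  have e2 : ‖hat τ (cay r ^ n * r)‖ ^ 2 = ‖hat τ r‖ ^ 2 := by exact_mod_cast e1
  exact (pow_left_inj₀ (norm_nonneg _) (norm_nonneg _) two_ne_zero).1 e2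

/-- the cross terms are non-negative -/
theorem cross_nonneg {y r : Elt N} (h : Res y r) (d : ℝ) (j l : ℕ) :
    0 ≤ RCLike.re ⟪(2 * I * (d : ℂ)) • tens τ (hat τ (cay r ^ j * r)) (hat τ (r * cay r ^ l)),
      (2 * I * (d : ℂ)) • tens τ (hat τ (cay r ^ (j + l) * r)) (hat τ r)⟫_ℂ := by
  rw [inner_smul_left, inner_smul_right, tens_inner, hat_inner, hat_inner]
  have e1 : τ.toFun (star (cay r ^ j * r) * (cay r ^ (j + l) * r)) =
      τ.toFun (star r * r * cay r ^ l) := by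
    have : star (cay r ^ j * r) * (cay r ^ (j + l) * r) = star r * (cay r ^ l * r) := by
      rw [star_mul, pow_add]
      calc star r * star (cay r ^ j) * (cay r ^ j * cay r ^ l * r) =
          star r * ((star (cay r ^ j) * cay r ^ j) * (cay r ^ l * r)) := by
            simp only [mul_assoc]
        _ = _ := by rw [h.pow_star_mul, one_mul]
    rw [this, ← mul_assoc, τ.tracial, ← mul_assoc, h.normal]
  have e2 : τ.toFun (star (r * cay r ^ l) * r) =
      (starRingEnd ℂ) (τ.toFun (star r * r * cay r ^ l)) := by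
    rw [← τ.map_star, star_mul, star_mul, star_mul, star_star, mul_assoc]
  rw [e1, e2, mul_conj]
  have e3 : (starRingEnd ℂ) (2 * I * (d : ℂ)) = -(2 * I * (d : ℂ)) := by
    rw [map_mul, map_mul, conj_I, conj_ofReal, map_ofNat]; ring
  rw [e3]
  have e4 : -(2 * I * (d : ℂ)) * (2 * I * (d : ℂ) *
      ((normSq (τ.toFun (star r * r * cay r ^ l)) : ℝ) : ℂ)) =
      ((4 * d ^ 2 * normSq (τ.toFun (star r * r * cay r ^ l)) : ℝ) : ℂ) := by
    push_cast
    linear_combination (-4 * (d : ℂ) ^ 2 * (normSq (τ.toFun (star r * r * cay r ^ l)) : ℂ)) * I_sq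
  rw [e4, RCLike.re_eq_complex_re, ofReal_re]
  have := normSq_nonneg (τ.toFun (star r * r * cay r ^ l))
  positivity

theorem alpha_lower {y r : Elt N} (h : Res y r) (d : ℝ) (n : ℕ) :
    n * (4 * d ^ 2 * ‖hat τ r‖ ^ 4) ≤ ‖alpha τ d r n‖ ^ 2 := by
  induction n with
  | zero => simp
  | succ n ih =>
    rw [alpha_succ, norm_add_sq (𝕜 := ℂ), rmulT_cay_norm h]
    have h1 : 0 ≤ RCLike.re ⟪rmulT τ (cay r) (alpha τ d r n),
        (2 * I * (d : ℂ)) • tens τ (hat τ (cay r ^ n * r)) (hat τ r)⟫_ℂ := by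
      rw [alpha, map_sum, sum_inner, map_sum]
      apply Finset.sum_nonneg
      intro j hj
      have hj' : j < n := Finset.mem_range.1 hj
      rw [map_smul, rmulT_tens, rmul_hat, mul_assoc r, ← pow_succ]
      have h2 := cross_nonneg (τ := τ) h d j (n - 1 - j + 1)
      have h3 : j + (n - 1 - j + 1) = n := by omega
      rw [h3] at h2
      exact h2
    have h2 : ‖(2 * I * (d : ℂ)) • tens τ (hat τ (cay r ^ n * r)) (hat τ r)‖ ^ 2 =
        4 * d ^ 2 * ‖hat τ r‖ ^ 4 := by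
      rw [norm_smul, tens_norm, hat_pow_mul_norm h, norm_mul, norm_mul, norm_I, Complex.norm_ofNat,
        Complex.norm_real, Real.norm_eq_abs]
      have : |d| ^ 2 = d ^ 2 := sq_abs d
      calc (2 * 1 * |d| * (‖hat τ r‖ * ‖hat τ r‖)) ^ 2 = 4 * |d| ^ 2 * ‖hat τ r‖ ^ 4 := by ring
        _ = _ := by rw [this]
    rw [h2]
    push_cast
    nlinarith

theorem alpha_adj {i : Fin m} {d : ℝ} {r : Elt N} (C : ℝ)
    (hC : ∀ j k : ℕ, ∃ ζ, Adj τ x i (cay r ^ j * r) (r * cay r ^ k) ζ ∧ ‖ζ‖ ≤ C) (n : ℕ) :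
    ∃ ζ : L2 τ, (∀ ξ α, (ξ, α) ∈ (fdqGraph τ x i).topologicalClosure →
      ⟪α, alpha τ d r n⟫_ℂ = ⟪ξ, ζ⟫_ℂ) ∧ ‖ζ‖ ≤ n * (2 * |d| * C) := by
  choose Z hZ1 hZ2 using hC
  refine ⟨∑ j ∈ Finset.range n, (2 * I * (d : ℂ)) • Z j (n - 1 - j), ?_, ?_⟩
  · intro ξ α hv
    rw [alpha, inner_sum, inner_sum]
    apply Finset.sum_congr rfl
    intro j _
    rw [inner_smul_right, inner_smul_right, hZ1 j (n - 1 - j) ξ α hv]
  · refine (norm_sum_le _ _).trans ?_
    have : ∀ j ∈ Finset.range n, ‖(2 * I * (d : ℂ)) • Z j (n - 1 - j)‖ ≤ 2 * |d| * C := by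
      intro j _
      rw [norm_smul, norm_mul, norm_mul, norm_I, Complex.norm_ofNat, Complex.norm_real,
        Real.norm_eq_abs, mul_one]
      exact mul_le_mul_of_nonneg_left (hZ2 _ _) (by positivity)
    refine (Finset.sum_le_sum this).trans ?_
    rw [Finset.sum_const, Finset.card_range, nsmul_eq_mul]

end Pool.Agent.H768R2.FQ
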