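import Pool.Agent.H768R2.FQ.Alpha

set_option autoImplicit false

open scoped InnerProductSpace TensorProduct Topology NNReal
open Filter Complex

namespace Pool.Agent.H768R2.FQ

universe u

variable {K : Type u} [NormedAddCommGroup K] [InnerProductSpace ℂ K] [CompleteSpace K]
variable {N : VonNeumannAlgebra K} {τ : TraceState N}
variable {m : ℕ} {x : Fin m → Elt N}

theorem unifDist_bdd {Δ : Set (L2 τ × L2 τ)} {φ : ℝ≥0 → L2 τ →L[ℂ] L2 τ}
    (h : IsSemigroupOf Δ φ) (t : ℝ≥0) : BddAbove (Set.range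
      (fun y : {y : Elt N // ‖(y : K →L[ℂ] K)‖ ≤ 1} => ‖φ t (hat τ y) - hat τ y‖)) := by
  refine ⟨2, ?_⟩
  rintro _ ⟨y, rfl⟩
  have h1 : ‖hat τ (y : Elt N)‖ ≤ 1 := (hat_norm_le _).trans y.2
  have h2 : ‖φ t (hat τ (y : Elt N))‖ ≤ 1 := by
    refine ((φ t).le_opNorm _).trans ?_
    have := mul_le_mul (h.norm_le t) h1 (norm_nonneg _) zero_le_one
    simpa using this
  refine (norm_sub_le _ _).trans ?_
  linarith

theorem le_unifDist {Δ : Set (L2 τ × L2 τ)} {φ : ℝ≥0 → L2 τ →L[ℂ] L2 τ}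
    (h : IsSemigroupOf Δ φ) (t : ℝ≥0) (y : Elt N) (hy : ‖(y : K →L[ℂ] K)‖ ≤ 1) :
    ‖φ t (hat τ y) - hat τ y‖ ≤ unifDist τ φ t :=
  le_ciSup (unifDist_bdd h t) ⟨y, hy⟩

theorem semi_lower {Δ : Set (L2 τ × L2 τ)} {φ : ℝ≥0 → L2 τ →L[ℂ] L2 τ}
    (h : IsSemigroupOf Δ φ) {u ζ : L2 τ} (hu : (u, ζ) ∈ Δ) (t : ℝ≥0) (ht : 0 < t) :
    (⟪u, ζ⟫_ℂ).re ≤ ‖φ t u - u‖ * ‖ζ‖ + ‖u‖ ^ 2 / t := by
  have h1 := h.key hu t ht
  have ht' : (0 : ℝ) < t := by exact_mod_cast ht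
  have h2 : (⟪φ t u, ζ⟫_ℂ).re ≤ ‖u‖ ^ 2 / t := by
    rw [le_div_iff₀ ht', mul_comm]
    exact h1
  have h3 : (⟪u, ζ⟫_ℂ).re = (⟪u - φ t u, ζ⟫_ℂ).re + (⟪φ t u, ζ⟫_ℂ).re := by
    rw [← Complex.add_re, ← inner_add_left, sub_add_cancel]
  have h4 : (⟪u - φ t u, ζ⟫_ℂ).re ≤ ‖φ t u - u‖ * ‖ζ‖ := by
    rw [norm_sub_rev]
    exact (Complex.re_le_norm _).trans (norm_inner_le_norm _ _)
  linarith

theorem exists_lower_bound (i : Fin m) (hx : star (x i) = x i) (J : L2 τ)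
    (hJ : (tens τ (hat τ 1) (hat τ 1), J) ∈ (fdqGraph τ x i).adjoint)
    (T : Submodule ℂ (L2 τ × PiLp 2 (fun _ : Fin m => L2T τ))) (hT : IsClosedGradient τ x T)
    (φ : ℝ≥0 → L2 τ →L[ℂ] L2 τ) (hφ : IsSemigroupOf (lapGraph T) φ) :
    ∃ c : ℝ, 0 < c ∧ ∀ t : ℝ≥0, 0 < t → c ≤ unifDist τ φ t := by
  set X := ‖(x i : K →L[ℂ] K)‖ with hX
  have hX0 : 0 ≤ X := norm_nonneg _
  set d : ℝ := 1 / (2 * (X + 1)) with hd
  have hd0 : 0 < d := by positivity
  have hnorm : ‖(((d : ℂ) • x i : Elt N) : K →L[ℂ] K)‖ = d * X := by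
    show ‖(d : ℂ) • (x i : K →L[ℂ] K)‖ = d * X
    rw [norm_smul, Complex.norm_real, Real.norm_eq_abs, abs_of_pos hd0]
  have hsum : ‖(((d : ℂ) • x i : Elt N) : K →L[ℂ] K)‖ + ‖(d : ℂ)‖ ≤ 1 / 2 := by
    rw [hnorm, Complex.norm_real, Real.norm_eq_abs, abs_of_pos hd0]
    have : d * X + d = 1 / 2 := by rw [hd]; field_simp
    exact this.le
  have hsa : star ((d : ℂ) • x i) = (d : ℂ) • x i := by
    rw [star_smul, hx, Complex.star_def, conj_ofReal]
  obtain ⟨r, hr⟩ := exists_res ((d : ℂ) • x i) hsa (by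
    have := norm_nonneg (d : ℂ)
    linarith)
  have hAdj := adj_of_conj τ x i J hJ
  obtain ⟨C, hC0, hC⟩ := uniform_bound hAdj hr hsum
  -- `r ≠ 0`
  have hrn : 0 < ‖hat τ r‖ := by
    rcases (norm_nonneg (hat τ r)).eq_or_lt with h0 | h0
    · exfalso
      have h1 : τ.toFun (star r * r) = 0 := by
        rw [hat_norm_sq', ← h0]; simp
      have h2 : r = 0 := τ.faithful r h1
      have h3 := hr.left
      rw [h2, zero_mul] at h3
      have h4 := τ.one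
      rw [← h3] at h4
      have h5 : τ.toFun 0 = 0 := by
        have := τ.map_smul 0 1
        simpa using this
      rw [h5] at h4
      exact zero_ne_one h4
    · exact h0
  set A : ℝ := 4 * d ^ 2 * ‖hat τ r‖ ^ 4 with hA
  set B : ℝ := 2 * |d| * C with hB
  have hA0 : 0 < A := by positivity
  have hB0 : 0 ≤ B := by positivity
  have hTcl : (gradGraph τ x).topologicalClosure ≤ T :=
    Submodule.topologicalClosure_minimal _ hT.extends_grad hT.closed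
  have main : ∀ t : ℝ≥0, 0 < t → ∀ n : ℕ, n * A ≤ unifDist τ φ t * (n * B) + 1 / t := by
    intro t ht n
    obtain ⟨ζ, hζ1, hζ2⟩ := alpha_adj (d := d) C hC n
    have hmem : (hat τ (cay r ^ n), WithLp.toLp 2 (Pi.single i (alpha τ d r n) :
        ∀ _ : Fin m, L2T τ)) ∈ T := by
      have := alpha_mem (τ := τ) hr hsum n
      rw [gradI_mem, gradInj_apply] at this
      exact hTcl this
    have hcl := hT.le_closures _ _ hmem i
    have hcl' : (hat τ (cay r ^ n), alpha τ d r n) ∈ (fdqGraph τ x i).topologicalClosure := by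
      have e : (WithLp.toLp 2 (Pi.single i (alpha τ d r n) : ∀ _ : Fin m, L2T τ) :
        PiLp 2 (fun _ : Fin m => L2T τ)) i = alpha τ d r n := Pi.single_eq_same i _
      rwa [e] at hcl
    have hlap : (hat τ (cay r ^ n), ζ) ∈ lapGraph T := by
      refine ⟨WithLp.toLp 2 (Pi.single i (alpha τ d r n) : ∀ _ : Fin m, L2T τ), hmem, ?_⟩
      rw [Submodule.mem_adjoint_iff]
      intro a b hab
      have h1 := hζ1 _ _ (hT.le_closures a b hab i)
      show ⟪b, WithLp.toLp 2 (Pi.single i (alpha τ d r n) : ∀ _ : Fin m, L2T τ)⟫_ℂ - ⟪a, ζ⟫_ℂ = 0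
      rw [PiLp.inner_apply, Finset.sum_eq_single i, sub_eq_zero, ← h1]
      · congr 1
        exact Pi.single_eq_same i _
      · intro j _ hj
        have : (WithLp.toLp 2 (Pi.single i (alpha τ d r n) : ∀ _ : Fin m, L2T τ) :
          PiLp 2 (fun _ : Fin m => L2T τ)) j = 0 := Pi.single_eq_of_ne hj _
        rw [this, inner_zero_right]
      · intro h; exact absurd (Finset.mem_univ i) h
    have hre : (⟪hat τ (cay r ^ n), ζ⟫_ℂ).re = ‖alpha τ d r n‖ ^ 2 := by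
      rw [← hζ1 _ _ hcl', inner_self_eq_norm_sq_to_K]
      norm_cast
    have hun : ‖hat τ (cay r ^ n)‖ = 1 := by
      have h1 : τ.toFun (star (cay r ^ n) * cay r ^ n) = 1 := by rw [hr.pow_star_mul, τ.one]
      rw [hat_norm_sq'] at h1
      have h2 : ‖hat τ (cay r ^ n)‖ ^ 2 = 1 := by exact_mod_cast h1
      nlinarith [norm_nonneg (hat τ (cay r ^ n))]
    have h1 := semi_lower hφ hlap t ht
    rw [hre, hun, one_pow] at h1
    have h2 := alpha_lower (τ := τ) hr d n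
    have h3 := le_unifDist hφ t (cay r ^ n) (cay_pow_norm hr n)
    have h4 : ‖φ t (hat τ (cay r ^ n)) - hat τ (cay r ^ n)‖ * ‖ζ‖ ≤
        unifDist τ φ t * (n * B) := by
      apply mul_le_mul h3 hζ2 (norm_nonneg _)
      exact (norm_nonneg _).trans h3
    linarith
  refine ⟨A / (B + 1), by positivity, ?_⟩
  intro t ht
  have hD0 : 0 ≤ unifDist τ φ t :=
    (norm_nonneg _).trans (le_unifDist hφ t 0 (by
      show ‖(0 : K →L[ℂ] K)‖ ≤ 1
      rw [norm_zero]; exact zero_le_one))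
  have ht' : (0 : ℝ) < t := by exact_mod_cast ht
  have key : A ≤ unifDist τ φ t * B := by
    by_contra hlt
    rw [not_le] at hlt
    obtain ⟨n, hn⟩ := exists_nat_gt ((1 / t) / (A - unifDist τ φ t * B))
    have h1 := main t ht n
    rw [div_lt_iff₀ (by linarith)] at hn
    nlinarith
  rw [div_le_iff₀ (by positivity)]
  nlinarith

theorem not_uniform_of_lower {φ : ℝ≥0 → L2 τ →L[ℂ] L2 τ}
    (h : ∃ c : ℝ, 0 < c ∧ ∀ t : ℝ≥0, 0 < t → c ≤ unifDist τ φ t) : ¬ ConvergesUniformly τ φ := by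
  obtain ⟨c, hc, h1⟩ := h
  intro h2
  have h3 : c ≤ 0 := by
    refine ge_of_tendsto h2 ?_
    filter_upwards [self_mem_nhdsWithin] with t ht
    exact h1 t ht
  linarith

end Pool.Agent.H768R2.FQ
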