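import Mathlib

set_option autoImplicit false

open scoped InnerProductSpace TensorProduct Topology NNReal
open Filter

namespace Pool.Agent.H768R2.FQ

universe u

section vN

variable {K : Type u} [NormedAddCommGroup K] [InnerProductSpace ℂ K] [CompleteSpace K]

/-- The star algebra of elements of a von Neumann algebra `N` acting on `K`. -/
abbrev Elt (N : VonNeumannAlgebra K) : Type u := N.toStarSubalgebra

/-- The von Neumann algebra generated by a set of operators: the bicommutant of the set and its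
adjoints. -/
noncomputable def vnGen (S : Set (K →L[ℂ] K)) : VonNeumannAlgebra K where
  toStarSubalgebra := StarSubalgebra.centralizer ℂ
    (StarSubalgebra.centralizer ℂ S : Set (K →L[ℂ] K))
  centralizer_centralizer' := by
    show Set.centralizer (Set.centralizer ((StarSubalgebra.centralizer ℂ
      (StarSubalgebra.centralizer ℂ S : Set (K →L[ℂ] K)) : StarSubalgebra ℂ (K →L[ℂ] K)) :
        Set (K →L[ℂ] K))) = ((StarSubalgebra.centralizer ℂ
      (StarSubalgebra.centralizer ℂ S : Set (K →L[ℂ] K)) : StarSubalgebra ℂ (K →L[ℂ] K)) :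
        Set (K →L[ℂ] K))
    rw [StarSubalgebra.coe_centralizer_centralizer, Set.centralizer_centralizer_centralizer]

/-- A faithful normal tracial state on the von Neumann algebra `N`. Normality: `τ` is a countable
sum of vector functionals. -/
structure TraceState (N : VonNeumannAlgebra K) where
  /-- the functional -/
  toFun : Elt N → ℂ
  one : toFun 1 = 1
  tracial : ∀ a b, toFun (a * b) = toFun (b * a)
  faithful : ∀ a, toFun (star a * a) = 0 → a = 0
  normal : ∃ ξ : ℕ → K, Summable (fun k => ‖ξ k‖ ^ 2) ∧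
    ∀ a : Elt N, toFun a = ∑' k, ⟪ξ k, (a : K →L[ℂ] K) (ξ k)⟫_ℂ

/-- `W*(x₁, …, x_m)`. -/
noncomputable abbrev wStar {M : VonNeumannAlgebra K} {m : ℕ} (x : Fin m → Elt M) :
    VonNeumannAlgebra K :=
  vnGen (Set.range fun i => (x i : K →L[ℂ] K))

theorem wStar_le {M : VonNeumannAlgebra K} {m : ℕ} (x : Fin m → Elt M) {a : K →L[ℂ] K}
    (ha : a ∈ wStar x) : a ∈ M := by
  have h1 : a ∈ StarSubalgebra.centralizer ℂ (StarSubalgebra.centralizer ℂ
      (Set.range fun i => (x i : K →L[ℂ] K)) : Set (K →L[ℂ] K)) := ha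
  rw [StarSubalgebra.mem_centralizer_iff] at h1
  have h2 : a ∈ Set.centralizer (Set.centralizer (M : Set (K →L[ℂ] K))) := by
    rw [Set.mem_centralizer_iff]
    intro g hg
    refine (h1 g ?_).1
    show g ∈ StarSubalgebra.centralizer ℂ (Set.range fun i => (x i : K →L[ℂ] K))
    rw [StarSubalgebra.mem_centralizer_iff]
    rintro _ ⟨i, rfl⟩
    exact ⟨hg _ (x i).2, hg _ (star_mem (x i).2)⟩
  rw [VonNeumannAlgebra.centralizer_centralizer] at h2
  exact h2

theorem mem_wStar {M : VonNeumannAlgebra K} {m : ℕ} (x : Fin m → Elt M) (i : Fin m) :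
    (x i : K →L[ℂ] K) ∈ wStar x := by
  show (x i : K →L[ℂ] K) ∈ StarSubalgebra.centralizer ℂ (StarSubalgebra.centralizer ℂ
      (Set.range fun i => (x i : K →L[ℂ] K)) : Set (K →L[ℂ] K))
  rw [StarSubalgebra.mem_centralizer_iff]
  intro g hg
  have h1 : ∀ g ∈ StarSubalgebra.centralizer ℂ (Set.range fun i => (x i : K →L[ℂ] K)),
      g * (x i : K →L[ℂ] K) = (x i : K →L[ℂ] K) * g := by
    intro g hg
    rw [StarSubalgebra.mem_centralizer_iff] at hg
    exact (hg _ ⟨i, rfl⟩).1.symm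
  exact ⟨h1 g hg, h1 _ (star_mem hg)⟩

/-- `x₁, …, x_m` as elements of `W*(x₁, …, x_m)`. -/
noncomputable def gens {M : VonNeumannAlgebra K} {m : ℕ} (x : Fin m → Elt M) (i : Fin m) :
    Elt (wStar x) := ⟨(x i : K →L[ℂ] K), mem_wStar x i⟩

/-- The restriction of the trace of `M` to `N = W*(x₁, …, x_m)`. -/
noncomputable def TraceState.restrict {M : VonNeumannAlgebra K} (τ : TraceState M) {m : ℕ}
    (x : Fin m → Elt M) : TraceState (wStar x) where
  toFun a := τ.toFun ⟨(a : K →L[ℂ] K), wStar_le x a.2⟩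
  one := τ.one
  tracial a b := τ.tracial ⟨(a : K →L[ℂ] K), wStar_le x a.2⟩ ⟨(b : K →L[ℂ] K), wStar_le x b.2⟩
  faithful a h := by
    have h1 := τ.faithful ⟨(a : K →L[ℂ] K), wStar_le x a.2⟩ h
    apply Subtype.ext
    exact congrArg (fun b : Elt M => (b : K →L[ℂ] K)) h1
  normal := by
    obtain ⟨ξ, hξ, h⟩ := τ.normal
    exact ⟨ξ, hξ, fun a => h _⟩

omit [CompleteSpace K] in
theorem summable_vec (ξ : ℕ → K) (hξ : Summable (fun k => ‖ξ k‖ ^ 2)) (a : K →L[ℂ] K) :
    Summable (fun k => ⟪ξ k, a (ξ k)⟫_ℂ) := by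
  refine Summable.of_norm_bounded (hξ.mul_left ‖a‖) (fun k => ?_)
  calc ‖⟪ξ k, a (ξ k)⟫_ℂ‖ ≤ ‖ξ k‖ * ‖a (ξ k)‖ := norm_inner_le_norm _ _
    _ ≤ ‖ξ k‖ * (‖a‖ * ‖ξ k‖) := by gcongr; exact a.le_opNorm _
    _ = ‖a‖ * ‖ξ k‖ ^ 2 := by ring

variable {N : VonNeumannAlgebra K} (τ : TraceState N)

theorem TraceState.map_add (a b : Elt N) : τ.toFun (a + b) = τ.toFun a + τ.toFun b := by
  obtain ⟨ξ, hξ, h⟩ := τ.normal
  rw [h, h, h, ← (summable_vec ξ hξ _).tsum_add (summable_vec ξ hξ _)]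
  congr 1
  funext k
  rw [← inner_add_right]
  rfl

theorem TraceState.map_smul (c : ℂ) (a : Elt N) : τ.toFun (c • a) = c * τ.toFun a := by
  obtain ⟨ξ, hξ, h⟩ := τ.normal
  rw [h, h, ← tsum_mul_left]
  congr 1
  funext k
  rw [← inner_smul_right]
  rfl

theorem TraceState.map_star (a : Elt N) : τ.toFun (star a) = (starRingEnd ℂ) (τ.toFun a) := by
  obtain ⟨ξ, hξ, h⟩ := τ.normal
  rw [h, h, Complex.conj_tsum]
  congr 1
  funext k
  rw [inner_conj_symm]
  show ⟪ξ k, (star (a : K →L[ℂ] K)) (ξ k)⟫_ℂ = _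
  rw [ContinuousLinearMap.star_eq_adjoint, ContinuousLinearMap.adjoint_inner_right]

theorem TraceState.norm_sq_eq (ξ : ℕ → K) (h : ∀ a : Elt N, τ.toFun a =
    ∑' k, ⟪ξ k, (a : K →L[ℂ] K) (ξ k)⟫_ℂ) (a : Elt N) :
    τ.toFun (star a * a) = ((∑' k, ‖(a : K →L[ℂ] K) (ξ k)‖ ^ 2 : ℝ) : ℂ) := by
  rw [h, Complex.ofReal_tsum]
  congr 1
  funext k
  show ⟪ξ k, (star (a : K →L[ℂ] K)) ((a : K →L[ℂ] K) (ξ k))⟫_ℂ = _
  rw [ContinuousLinearMap.star_eq_adjoint, ContinuousLinearMap.adjoint_inner_right,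
    inner_self_eq_norm_sq_to_K]
  norm_cast

theorem TraceState.re_nonneg (a : Elt N) : 0 ≤ (τ.toFun (star a * a)).re := by
  obtain ⟨ξ, hξ, h⟩ := τ.normal
  rw [τ.norm_sq_eq ξ h, Complex.ofReal_re]
  exact tsum_nonneg (fun k => by positivity)

/-- The elements of `N`, to be equipped with the inner product `⟪a, b⟫ = τ(a* b)`. -/
def Pre {N : VonNeumannAlgebra K} (_τ : TraceState N) : Type u := Elt N

noncomputable instance : AddCommGroup (Pre τ) := inferInstanceAs (AddCommGroup (Elt N))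
noncomputable instance : Module ℂ (Pre τ) := inferInstanceAs (Module ℂ (Elt N))

/-- The inner product `⟪a, b⟫ = τ(a* b)` on `N`. -/
@[instance_reducible]
noncomputable def preCore : InnerProductSpace.Core ℂ (Pre τ) where
  inner a b := τ.toFun (star (show Elt N from a) * (show Elt N from b))
  conj_inner_symm a b := by
    show (starRingEnd ℂ) (τ.toFun (star (show Elt N from b) * (show Elt N from a))) =
      τ.toFun (star (show Elt N from a) * (show Elt N from b))
    rw [← τ.map_star, star_mul, star_star]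
  re_inner_nonneg a := τ.re_nonneg _
  add_left a b c := by
    show τ.toFun (star ((show Elt N from a) + (show Elt N from b)) * (show Elt N from c)) = _
    rw [star_add, add_mul, τ.map_add]
  smul_left a b c := by
    show τ.toFun (star (c • (show Elt N from a)) * (show Elt N from b)) = _
    rw [star_smul, smul_mul_assoc, τ.map_smul]
    rfl
  definite a h := τ.faithful _ h

noncomputable instance : NormedAddCommGroup (Pre τ) :=
  @InnerProductSpace.Core.toNormedAddCommGroup ℂ (Pre τ) _ _ _ (preCore τ)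

noncomputable instance : InnerProductSpace ℂ (Pre τ) :=
  InnerProductSpace.ofCore (preCore τ).toCore

/-- The Hilbert space `L²(N)`: the completion of `N` for the inner product `⟪a, b⟫ = τ(a* b)`. -/
abbrev L2 : Type u := UniformSpace.Completion (Pre τ)

/-- The vector of `L²(N)` given by an element of `N`. -/
noncomputable def hat (a : Elt N) : L2 τ := ((show Pre τ from a : Pre τ) : L2 τ)

/-- The Hilbert space tensor product `L²(N) ⊗ L²(N)`. -/
abbrev L2T : Type u := UniformSpace.Completion (L2 τ ⊗[ℂ] L2 τ)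

/-- The elementary tensor `ξ ⊗ η`. -/
noncomputable def tens (ξ η : L2 τ) : L2T τ := ((ξ ⊗ₜ[ℂ] η : L2 τ ⊗[ℂ] L2 τ) : L2T τ)

section tuple

variable {m : ℕ} (x : Fin m → Elt N)

/-- The monomial `x_{w₁} x_{w₂} ⋯ x_{w_n}`. -/
noncomputable def mono (w : List (Fin m)) : Elt N := (w.map x).prod

/-- The free difference quotient `∂_i` of the monomial `x_{w₁} ⋯ x_{w_n}`: the sum of
`x_{w₁} ⋯ x_{w_{k-1}} ⊗ x_{w_{k+1}} ⋯ x_{w_n}` over all positions `k` with `w_k = i`. -/
noncomputable def fdq (i : Fin m) (w : List (Fin m)) : L2T τ :=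
  ∑ k ∈ Finset.range w.length, if w[k]? = some i then
    tens τ (hat τ (mono x (w.take k))) (hat τ (mono x (w.drop (k + 1)))) else 0

/-- The graph of the free difference quotient `∂_i : ℂ⟨x₁, …, x_m⟩ → L²(N) ⊗ L²(N)`. -/
noncomputable def fdqGraph (i : Fin m) : Submodule ℂ (L2 τ × L2T τ) :=
  Submodule.span ℂ (Set.range fun w => (hat τ (mono x w), fdq τ x i w))

/-- `(x₁, …, x_m)` has finite free Fisher information: for every `i` the vector `1 ⊗ 1` lies in the
domain of `∂_i*`, that is, there is a conjugate variable `J_i = ∂_i*(1 ⊗ 1)`. -/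
def FiniteFisher : Prop :=
  ∀ i, ∃ J : L2 τ, (tens τ (hat τ 1) (hat τ 1), J) ∈ (fdqGraph τ x i).adjoint

/-- The graph of the operator `(∂₁, …, ∂_m) : ℂ⟨x₁, …, x_m⟩ → ⨁_i L²(N) ⊗ L²(N)`. -/
noncomputable def gradGraph : Submodule ℂ (L2 τ × PiLp 2 (fun _ : Fin m => L2T τ)) :=
  Submodule.span ℂ (Set.range fun w => (hat τ (mono x w), WithLp.toLp 2 (fun i => fdq τ x i w)))

/-- `T` is (the graph of) a closed version of the gradient `(∂₁, …, ∂_m)`: it is a closed linear
operator that extends `(∂₁, …, ∂_m)` on polynomials and is contained in the column of the closures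
of the operators `∂_i`. -/
structure IsClosedGradient (T : Submodule ℂ (L2 τ × PiLp 2 (fun _ : Fin m => L2T τ))) : Prop where
  closed : IsClosed (T : Set (L2 τ × PiLp 2 (fun _ : Fin m => L2T τ)))
  extends_grad : gradGraph τ x ≤ T
  le_closures : ∀ ξ α, (ξ, α) ∈ T → ∀ i, (ξ, α i) ∈ (fdqGraph τ x i).topologicalClosure

end tuple

end vN

section semigroup

variable {E : Type u} [NormedAddCommGroup E] [InnerProductSpace ℂ E] [CompleteSpace E]
variable {G : Type u} [NormedAddCommGroup G] [InnerProductSpace ℂ G] [CompleteSpace G]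

/-- The graph of the operator `T* T`. -/
def lapGraph (T : Submodule ℂ (E × G)) : Set (E × E) :=
  {p | ∃ α : G, (p.1, α) ∈ T ∧ (α, p.2) ∈ T.adjoint}

/-- `φ` is the semigroup `exp(-t Δ)`: a strongly continuous one-parameter semigroup of self-adjoint
contractions whose generator is `-Δ`. -/
structure IsSemigroupOf (Δ : Set (E × E)) (φ : ℝ≥0 → E →L[ℂ] E) : Prop where
  zero : φ 0 = 1
  add : ∀ s t, φ (s + t) = φ s * φ t
  norm_le : ∀ t, ‖φ t‖ ≤ 1
  selfAdjoint : ∀ t, IsSelfAdjoint (φ t)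
  cont : ∀ ξ, Tendsto (fun t => φ t ξ) (𝓝 0) (𝓝 ξ)
  gen : ∀ ξ ζ, (ξ, ζ) ∈ Δ ↔
    Tendsto (fun t : ℝ≥0 => (t : ℝ)⁻¹ • (ξ - φ t ξ)) (𝓝[>] 0) (𝓝 ζ)

end semigroup

section conv

variable {K : Type u} [NormedAddCommGroup K] [InnerProductSpace ℂ K] [CompleteSpace K]
variable {N : VonNeumannAlgebra K} (τ : TraceState N)

/-- `sup {‖φ_t(y) - y‖₂ : y ∈ N, ‖y‖ ≤ 1}`. -/
noncomputable def unifDist (φ : ℝ≥0 → L2 τ →L[ℂ] L2 τ) (t : ℝ≥0) : ℝ :=
  ⨆ y : {y : Elt N // ‖(y : K →L[ℂ] K)‖ ≤ 1}, ‖φ t (hat τ y) - hat τ y‖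

/-- `φ_t` converges to the identity uniformly on the unit ball of `N`, as `t → 0+`. -/
def ConvergesUniformly (φ : ℝ≥0 → L2 τ →L[ℂ] L2 τ) : Prop :=
  Tendsto (unifDist τ φ) (𝓝[>] 0) (𝓝 0)

end conv

end Pool.Agent.H768R2.FQ
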