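import Pool.Agent.H768R2.FQ.Adj

set_option autoImplicit false

open scoped InnerProductSpace TensorProduct Topology NNReal
open Filter Complex

namespace Pool.Agent.H768R2.FQ

universe u

variable {K : Type u} [NormedAddCommGroup K] [InnerProductSpace ℂ K] [CompleteSpace K]
variable {N : VonNeumannAlgebra K} {τ : TraceState N}
variable {m : ℕ} {x : Fin m → Elt N}

theorem hat_norm_sq' (a : Elt N) : τ.toFun (star a * a) = ((‖hat τ a‖ ^ 2 : ℝ) : ℂ) := by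
  rw [← hat_norm_sq]; norm_cast

theorem hat_norm_le (a : Elt N) : ‖hat τ a‖ ≤ ‖(a : K →L[ℂ] K)‖ := by
  have h := lmul_norm_apply τ a (hat τ 1)
  rwa [lmul_hat, mul_one, hat_one_norm, mul_one] at h

theorem Res.im {y r : Elt N} (h : Res y r) : (τ.toFun r).im = -‖hat τ r‖ ^ 2 := by
  have h1 := congrArg τ.toFun h.e1
  rw [τ.map_smul, hat_norm_sq', sub_eq_add_neg, τ.map_add, τ.map_star] at h1
  have h2 : τ.toFun (-r) = -τ.toFun r := by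
    have := τ.map_smul (-1) r
    simpa using this
  rw [h2] at h1
  have h3 := congrArg Complex.im h1
  simp only [add_im, conj_im, neg_im, mul_im, mul_re, re_ofNat, I_re, im_ofNat, I_im, ofReal_im,
    ofReal_re] at h3
  linarith

/-- the isometry step -/
theorem norm_step {y r : Elt N} (h : Res y r) (U : L2 τ → L2 τ)
    (hU : ∀ ξ η, ⟪U ξ, U η⟫_ℂ = ⟪ξ, η⟫_ℂ) (hUr : U (hat τ (star r)) = hat τ r) (d : ℝ) (s : ℂ)
    (δ : L2 τ) (hδ : ⟪hat τ (star r), δ⟫_ℂ = -(d * s * τ.toFun r)) :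
    ‖U δ - (2 * I * d * s) • hat τ r‖ = ‖δ‖ := by
  have h1 : ‖U δ‖ ^ 2 = ‖δ‖ ^ 2 := by
    have : ((‖U δ‖ : ℝ) : ℂ) ^ 2 = ((‖δ‖ : ℝ) : ℂ) ^ 2 := by
      have e1 := inner_self_eq_norm_sq_to_K (𝕜 := ℂ) (U δ)
      have e2 := inner_self_eq_norm_sq_to_K (𝕜 := ℂ) δ
      rw [hU] at e1
      exact e1.symm.trans e2
    exact_mod_cast this
  have h2 : ⟪U δ, (2 * I * d * s) • hat τ r⟫_ℂ =
      -(2 * d ^ 2 * (s * (starRingEnd ℂ) s)) * (I * (starRingEnd ℂ) (τ.toFun r)) := by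
    rw [inner_smul_right, ← hUr, hU, ← inner_conj_symm, hδ, map_neg, map_mul, map_mul, conj_ofReal]
    ring
  have h3 : RCLike.re ⟪U δ, (2 * I * d * s) • hat τ r⟫_ℂ =
      2 * d ^ 2 * ‖s‖ ^ 2 * ‖hat τ r‖ ^ 2 := by
    rw [h2, mul_conj, RCLike.re_eq_complex_re, normSq_eq_norm_sq]
    have e : -(2 * (d : ℂ) ^ 2 * ((‖s‖ ^ 2 : ℝ) : ℂ)) = ((-(2 * d ^ 2 * ‖s‖ ^ 2) : ℝ) : ℂ) := by
      push_cast; ring
    rw [e, re_ofReal_mul, mul_re, I_re, I_im, conj_im, h.im]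
    ring
  have h4 : ‖(2 * I * d * s) • hat τ r‖ ^ 2 = 4 * d ^ 2 * ‖s‖ ^ 2 * ‖hat τ r‖ ^ 2 := by
    rw [norm_smul, norm_mul, norm_mul, norm_mul, norm_I, Complex.norm_ofNat, Complex.norm_real,
      Real.norm_eq_abs]
    have : |d| ^ 2 = d ^ 2 := sq_abs d
    calc (2 * 1 * |d| * ‖s‖ * ‖hat τ r‖) ^ 2 = 4 * |d| ^ 2 * ‖s‖ ^ 2 * ‖hat τ r‖ ^ 2 := by ring
      _ = _ := by rw [this]
  have h5 := norm_sub_sq (𝕜 := ℂ) (U δ) ((2 * I * d * s) • hat τ r)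
  rw [h1, h3, h4] at h5
  have h6 : ‖U δ - (2 * I * d * s) • hat τ r‖ ^ 2 = ‖δ‖ ^ 2 := by rw [h5]; ring
  exact (pow_left_inj₀ (norm_nonneg _) (norm_nonneg _) two_ne_zero).1 h6

theorem lmul_cay_inner {y r : Elt N} (h : Res y r) (ξ η : L2 τ) :
    ⟪lmul τ (cay r) ξ, lmul τ (cay r) η⟫_ℂ = ⟪ξ, η⟫_ℂ := by
  rw [lmul_inner, ← lmul_mul, h.cay_star_mul, lmul_one]

theorem rmul_cay_inner {y r : Elt N} (h : Res y r) (ξ η : L2 τ) :
    ⟪rmul τ (cay r) ξ, rmul τ (cay r) η⟫_ℂ = ⟪ξ, η⟫_ℂ := by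
  rw [rmul_inner, ← rmul_mul, h.cay_mul_star, rmul_one]

theorem fdq_star_r {i : Fin m} {d : ℝ} {r : Elt N} (hr : Res ((d : ℂ) • x i) r)
    (hd : ‖(((d : ℂ) • x i : Elt N) : K →L[ℂ] K)‖ + ‖(d : ℂ)‖ ≤ 1 / 2) :
    (hat τ (star r), -((d : ℂ) • tens τ (hat τ (star r)) (hat τ (star r)))) ∈
      (fdqGraph τ x i).topologicalClosure := by
  have h0 : (hat τ 1, (0 : L2T τ)) ∈ (fdqGraph τ x i).topologicalClosure := by
    apply Submodule.le_topologicalClosure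
    apply Submodule.subset_span
    refine ⟨[], ?_⟩
    simp only [mono_nil, fdq_nil]
  have h1 := right_resolvent_mem τ x i (d : ℂ) (-I) (by rw [norm_neg, norm_I]) hd (star r)
    hr.left' _ _ h0
  rwa [rmul_hat, one_mul, map_zero, zero_sub] at h1

theorem Adj.inner_star {i : Fin m} {d : ℝ} {a b r : Elt N} {ζ : L2 τ} (h : Adj τ x i a b ζ)
    (hr : Res ((d : ℂ) • x i) r)
    (hd : ‖(((d : ℂ) • x i : Elt N) : K →L[ℂ] K)‖ + ‖(d : ℂ)‖ ≤ 1 / 2) :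
    ⟪hat τ (star r), ζ⟫_ℂ = -(d * τ.toFun (r * a) * τ.toFun (r * b)) := by
  have h1 := h _ _ (fdq_star_r hr hd)
  rw [← h1, inner_neg_left, inner_smul_left, tens_inner, hat_inner, hat_inner, star_star,
    conj_ofReal]
  ring

/-- uniform bounds on the right chain -/
theorem right_chain {i : Fin m} {d : ℝ} {r : Elt N} {ζ : L2 τ} (h : Adj τ x i 1 r ζ)
    (hr : Res ((d : ℂ) • x i) r)
    (hd : ‖(((d : ℂ) • x i : Elt N) : K →L[ℂ] K)‖ + ‖(d : ℂ)‖ ≤ 1 / 2) (k : ℕ) :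
    ∃ ζ', Adj τ x i 1 (r * cay r ^ k) ζ' ∧ ‖ζ'‖ = ‖ζ‖ := by
  induction k with
  | zero => exact ⟨ζ, by rwa [pow_zero, mul_one], rfl⟩
  | succ k ih =>
    obtain ⟨ζ', h1, h2⟩ := ih
    have h3 := h1.right_w hr hd
    refine ⟨_, by rw [pow_succ, ← mul_assoc]; exact h3, ?_⟩
    rw [← h2, one_mul]
    refine norm_step hr (rmul τ (cay r)) (rmul_cay_inner hr) (by rw [rmul_hat, hr.mul_cay]) d _ ζ' ?_
    rw [h1.inner_star hr hd, mul_one]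
    ring

/-- uniform bounds on the left chain -/
theorem left_chain {i : Fin m} {d : ℝ} {r b : Elt N} {δ φ : L2 τ} (h : Adj τ x i r 1 δ)
    (h' : Adj τ x i r b φ) (hr : Res ((d : ℂ) • x i) r)
    (hd : ‖(((d : ℂ) • x i : Elt N) : K →L[ℂ] K)‖ + ‖(d : ℂ)‖ ≤ 1 / 2) (j : ℕ) :
    ∃ δ' φ', Adj τ x i (cay r ^ j * r) 1 δ' ∧ Adj τ x i (cay r ^ j * r) b φ' ∧
      ‖δ'‖ = ‖δ‖ ∧ ‖φ' - rmul τ b δ'‖ = ‖φ - rmul τ b δ‖ := by
  induction j with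
  | zero => exact ⟨δ, φ, by rwa [pow_zero, one_mul], by rwa [pow_zero, one_mul], rfl, rfl⟩
  | succ j ih =>
    obtain ⟨δ', φ', h1, h2, h3, h4⟩ := ih
    have h5 := h1.left_w hr hd
    have h6 := h2.left_w hr hd
    refine ⟨_, _, by rw [pow_succ', mul_assoc]; exact h5, by rw [pow_succ', mul_assoc]; exact h6,
      ?_, ?_⟩
    · rw [← h3, mul_one]
      refine norm_step hr (lmul τ (cay r)) (lmul_cay_inner hr) (by rw [lmul_hat, hr.cay_mul]) d _ δ' ?_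
      rw [h1.inner_star hr hd, mul_one]
    · rw [← h4, mul_one, map_sub, map_smul, rmul_hat]
      have e : lmul τ (cay r) φ' - (2 * I * d * τ.toFun (r * (cay r ^ j * r))) • hat τ (r * b) -
          (rmul τ b (lmul τ (cay r) δ') -
            (2 * I * d * τ.toFun (r * (cay r ^ j * r))) • hat τ (r * b)) =
          lmul τ (cay r) (φ' - rmul τ b δ') := by
        rw [map_sub, lmul_rmul]
        abel
      rw [e]
      have e1 := inner_self_eq_norm_sq_to_K (𝕜 := ℂ) (lmul τ (cay r) (φ' - rmul τ b δ'))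
      have e2 := inner_self_eq_norm_sq_to_K (𝕜 := ℂ) (φ' - rmul τ b δ')
      rw [lmul_cay_inner hr] at e1
      have e3 : ((‖lmul τ (cay r) (φ' - rmul τ b δ')‖ : ℝ) : ℂ) ^ 2 =
        ((‖φ' - rmul τ b δ'‖ : ℝ) : ℂ) ^ 2 := e1.symm.trans e2
      have e4 : ‖lmul τ (cay r) (φ' - rmul τ b δ')‖ ^ 2 = ‖φ' - rmul τ b δ'‖ ^ 2 := by
        exact_mod_cast e3
      exact (pow_left_inj₀ (norm_nonneg _) (norm_nonneg _) two_ne_zero).1 e4

theorem cay_norm {y r : Elt N} (h : Res y r) : ‖((cay r : Elt N) : K →L[ℂ] K)‖ ≤ 1 := by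
  have h1 : star ((cay r : Elt N) : K →L[ℂ] K) * ((cay r : Elt N) : K →L[ℂ] K) = 1 := by
    have := congrArg (fun a : Elt N => (a : K →L[ℂ] K)) h.cay_star_mul
    exact this
  have h2 : ‖((cay r : Elt N) : K →L[ℂ] K)‖ * ‖((cay r : Elt N) : K →L[ℂ] K)‖ ≤ 1 := by
    rw [← CStarRing.norm_star_mul_self, h1]
    exact ContinuousLinearMap.norm_id_le
  nlinarith [norm_nonneg ((cay r : Elt N) : K →L[ℂ] K)]

theorem cay_pow_norm {y r : Elt N} (h : Res y r) (k : ℕ) :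
    ‖((cay r ^ k : Elt N) : K →L[ℂ] K)‖ ≤ 1 := by
  induction k with
  | zero => rw [pow_zero]; exact ContinuousLinearMap.norm_id_le
  | succ k ih =>
    rw [pow_succ]
    show ‖((cay r ^ k : Elt N) : K →L[ℂ] K) * ((cay r : Elt N) : K →L[ℂ] K)‖ ≤ 1
    refine (norm_mul_le _ _).trans ?_
    have := mul_le_mul ih (cay_norm h) (norm_nonneg _) zero_le_one
    simpa using this

/-- uniform bound for all the divergences `∂_i*(w^j r ⊗ r w^k)` -/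
theorem uniform_bound {i : Fin m} {d : ℝ} {r : Elt N} {J : L2 τ} (h : Adj τ x i 1 1 J)
    (hr : Res ((d : ℂ) • x i) r)
    (hd : ‖(((d : ℂ) • x i : Elt N) : K →L[ℂ] K)‖ + ‖(d : ℂ)‖ ≤ 1 / 2) :
    ∃ C : ℝ, 0 ≤ C ∧ ∀ j k : ℕ, ∃ ζ, Adj τ x i (cay r ^ j * r) (r * cay r ^ k) ζ ∧ ‖ζ‖ ≤ C := by
  have hr1 := h.right_r hr hd
  rw [one_mul] at hr1
  set e₀ := rmul τ r J + ((d : ℂ) * τ.toFun (r * 1)) • hat τ r with he₀
  have hl1 := h.left_r hr hd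
  rw [mul_one] at hl1
  set d₀ := lmul τ r J + ((d : ℂ) * τ.toFun r) • hat τ r with hd₀
  set ρ := ‖(r : K →L[ℂ] K)‖ with hρ
  have hρ0 : 0 ≤ ρ := norm_nonneg _
  refine ⟨ρ * ‖e₀‖ + ‖(d : ℂ) * τ.toFun r‖ * (ρ * ρ) + ρ * ‖d₀‖ + ρ * ‖d₀‖, by positivity, ?_⟩
  intro j k
  obtain ⟨e, he1, he2⟩ := right_chain hr1 hr hd k
  set b := r * cay r ^ k with hb
  have hbn : ‖(b : K →L[ℂ] K)‖ ≤ ρ := by
    rw [hb]
    show ‖(r : K →L[ℂ] K) * ((cay r ^ k : Elt N) : K →L[ℂ] K)‖ ≤ ρ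
    refine (norm_mul_le _ _).trans ?_
    have := mul_le_mul_of_nonneg_left (cay_pow_norm hr k) hρ0
    rwa [mul_one] at this
  have hf1 := he1.left_r hr hd
  rw [mul_one] at hf1
  set f := lmul τ r e + ((d : ℂ) * τ.toFun r) • hat τ (r * b) with hf
  have hfn : ‖f‖ ≤ ρ * ‖e₀‖ + ‖(d : ℂ) * τ.toFun r‖ * (ρ * ρ) := by
    rw [hf]
    refine (norm_add_le _ _).trans (add_le_add ?_ ?_)
    · rw [← he2]; exact lmul_norm_apply τ r e
    · rw [norm_smul]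
      gcongr
      refine (hat_norm_le _).trans ?_
      show ‖(r : K →L[ℂ] K) * (b : K →L[ℂ] K)‖ ≤ ρ * ρ
      refine (norm_mul_le _ _).trans ?_
      exact mul_le_mul_of_nonneg_left hbn hρ0
  obtain ⟨δ', φ', h1, h2, h3, h4⟩ := left_chain hl1 hf1 hr hd j
  refine ⟨φ', h2, ?_⟩
  have e1 : ‖φ'‖ ≤ ‖φ' - rmul τ b δ'‖ + ‖rmul τ b δ'‖ := by
    have := norm_add_le (φ' - rmul τ b δ') (rmul τ b δ')
    rwa [sub_add_cancel] at this
  have e2 : ‖rmul τ b δ'‖ ≤ ρ * ‖d₀‖ := by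
    refine (rmul_norm_apply τ b δ').trans ?_
    rw [h3]
    gcongr
  have e3 : ‖rmul τ b d₀‖ ≤ ρ * ‖d₀‖ := by
    refine (rmul_norm_apply τ b d₀).trans ?_
    gcongr
  have e4 : ‖f - rmul τ b d₀‖ ≤ ‖f‖ + ‖rmul τ b d₀‖ := norm_sub_le _ _
  rw [h4] at e1
  linarith

end Pool.Agent.H768R2.FQ
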