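import Pool.Agent.H768R2.FQ.Semi

set_option autoImplicit false

open scoped InnerProductSpace Topology NNReal
open Filter

namespace Pool.Agent.H768R2.FQ

universe u

/-- the functions `exp(-t (1/r - 1))` -/
noncomputable def ff (t r : ℝ) : ℝ := Real.exp t * expNegInvGlue (r / t)

theorem ff_cont (t : ℝ) : Continuous (ff t) :=
  continuous_const.mul ((expNegInvGlue.contDiff (n := 0)).continuous.comp (continuous_id.div_const t))

theorem ff_zero (t : ℝ) (_ht : 0 < t) : ff t 0 = 0 := by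
  simp [ff, expNegInvGlue.zero]

theorem ff_pos {t r : ℝ} (ht : 0 < t) (hr : 0 < r) : ff t r = Real.exp (-(t * (1 / r - 1))) := by
  have h : ¬ (r / t ≤ 0) := not_le.2 (div_pos hr ht)
  rw [ff, expNegInvGlue, if_neg h, ← Real.exp_add]
  congr 1
  field_simp
  ring

theorem ff_nonneg (t r : ℝ) : 0 ≤ ff t r :=
  mul_nonneg (Real.exp_pos t).le (expNegInvGlue.nonneg _)

theorem ff_le_one {t r : ℝ} (ht : 0 < t) (hr : r ∈ Set.Icc (0 : ℝ) 1) : ff t r ≤ 1 := by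
  rcases hr.1.eq_or_lt with h | h
  · rw [← h, ff_zero t ht]; norm_num
  · rw [ff_pos ht h, Real.exp_le_one_iff]
    have : 1 ≤ 1 / r := by rw [le_div_iff₀ h]; linarith [hr.2]
    nlinarith

theorem ff_add {s t r : ℝ} (hs : 0 < s) (ht : 0 < t) (hr : r ∈ Set.Icc (0 : ℝ) 1) :
    ff (s + t) r = ff s r * ff t r := by
  rcases hr.1.eq_or_lt with h | h
  · rw [← h, ff_zero _ hs, ff_zero _ (add_pos hs ht)]; norm_num
  · rw [ff_pos ht h, ff_pos hs h, ff_pos (add_pos hs ht) h, ← Real.exp_add]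
    congr 1
    ring

theorem exp_neg_bound {x : ℝ} (hx : 0 ≤ x) : |(1 - Real.exp (-x)) - x| ≤ x ^ 2 := by
  have h1 : 1 - x ≤ Real.exp (-x) := Real.one_sub_le_exp_neg x
  have h2 : Real.exp (-x) ≤ 1 / (1 + x) := by
    rw [Real.exp_neg, ← one_div]
    apply one_div_le_one_div_of_le (by positivity)
    linarith [Real.add_one_le_exp x]
  have h3 : 1 / (1 + x) ≤ 1 - x + x ^ 2 := by
    rw [div_le_iff₀ (by positivity)]
    nlinarith [pow_nonneg hx 3]
  rw [abs_le]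
  constructor <;> nlinarith

theorem ff_b1 {t r : ℝ} (ht : 0 < t) (hr : r ∈ Set.Icc (0 : ℝ) 1) : ‖(1 - ff t r) * r‖ ≤ t := by
  rcases hr.1.eq_or_lt with h | h
  · rw [← h]; simp; exact ht.le
  · have h1 : 1 - t * (1 / r - 1) ≤ ff t r := by
      rw [ff_pos ht h]; exact Real.one_sub_le_exp_neg _
    rw [Real.norm_eq_abs, abs_of_nonneg (mul_nonneg (by linarith [ff_le_one ht hr]) h.le)]
    have h2 : (1 - ff t r) * r ≤ (t * (1 / r - 1)) * r := by
      apply mul_le_mul_of_nonneg_right _ h.le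
      linarith
    have h3 : (t * (1 / r - 1)) * r = t * (1 - r) := by field_simp
    rw [h3] at h2
    nlinarith

theorem ff_b2 {t r : ℝ} (ht : 0 < t) (hr : r ∈ Set.Icc (0 : ℝ) 1) :
    ‖t⁻¹ * ((1 - ff t r) * r)‖ ≤ 1 := by
  rw [norm_mul, Real.norm_eq_abs, abs_of_pos (inv_pos.2 ht), inv_mul_le_iff₀ ht, mul_one]
  exact ff_b1 ht hr

theorem ff_b3 {t r : ℝ} (ht : 0 < t) (hr : r ∈ Set.Icc (0 : ℝ) 1) :
    ‖(t⁻¹ * ((1 - ff t r) * r) - (1 - r)) * r‖ ≤ t := by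
  rcases hr.1.eq_or_lt with h | h
  · rw [← h]; simp; exact ht.le
  · have hs : 0 ≤ 1 / r - 1 := by
      have : 1 ≤ 1 / r := by rw [le_div_iff₀ h]; linarith [hr.2]
      linarith
    have h1 := exp_neg_bound (mul_nonneg ht.le hs)
    have h2 : (t⁻¹ * ((1 - ff t r) * r) - (1 - r)) * r =
        t⁻¹ * r ^ 2 * ((1 - Real.exp (-(t * (1 / r - 1)))) - t * (1 / r - 1)) := by
      rw [ff_pos ht h]
      field_simp
    rw [h2, Real.norm_eq_abs, abs_mul, abs_of_pos (by positivity)]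
    calc t⁻¹ * r ^ 2 * |(1 - Real.exp (-(t * (1 / r - 1)))) - t * (1 / r - 1)|
        ≤ t⁻¹ * r ^ 2 * (t * (1 / r - 1)) ^ 2 := by gcongr
      _ = t * (1 - r) ^ 2 := by field_simp
      _ ≤ t * 1 := by
        apply mul_le_mul_of_nonneg_left _ ht.le
        nlinarith [hr.1, hr.2]
      _ = t := mul_one t

variable {E : Type u} [NormedAddCommGroup E] [InnerProductSpace ℂ E] [CompleteSpace E]
variable {G : Type u} [NormedAddCommGroup G] [InnerProductSpace ℂ G] [CompleteSpace G]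

omit [CompleteSpace E] in
/-- extension of pointwise convergence from a dense set -/
theorem tendsto_of_dense {ι : Type*} {l : Filter ι} (A : ι → E →L[ℂ] E) (B : E →L[ℂ] E) (C : ℝ)
    (hA : ∀ᶠ i in l, ‖A i‖ ≤ C) (S : Set E) (hS : Dense S)
    (h : ∀ ξ ∈ S, Tendsto (fun i => A i ξ) l (𝓝 (B ξ))) (ξ : E) :
    Tendsto (fun i => A i ξ) l (𝓝 (B ξ)) := by
  rw [Metric.tendsto_nhds]
  intro ε hε
  set D : ℝ := |C| + ‖B‖ + 1 with hD
  have hDpos : 0 < D := by positivity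
  obtain ⟨η, hη, hd⟩ := Metric.mem_closure_iff.1 (hS ξ) (ε / (2 * D)) (by positivity)
  have h1 := Metric.tendsto_nhds.1 (h η hη) (ε / 2) (by positivity)
  filter_upwards [h1, hA] with i hi hAi
  rw [dist_eq_norm] at hi hd ⊢
  have e1 : A i ξ - B ξ = A i (ξ - η) + (A i η - B η) - B (ξ - η) := by
    rw [map_sub, map_sub]; abel
  have h2 : ‖A i (ξ - η)‖ ≤ |C| * ‖ξ - η‖ :=
    ((A i).le_opNorm _).trans (by gcongr; exact hAi.trans (le_abs_self C))
  have h3 : ‖B (ξ - η)‖ ≤ ‖B‖ * ‖ξ - η‖ := B.le_opNorm _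
  have h4 : (|C| + ‖B‖) * ‖ξ - η‖ ≤ D * ‖ξ - η‖ := by gcongr; rw [hD]; linarith
  have h5 : D * ‖ξ - η‖ < ε / 2 := by
    calc D * ‖ξ - η‖ < D * (ε / (2 * D)) := by gcongr
      _ = ε / 2 := by field_simp
  calc ‖A i ξ - B ξ‖ ≤ ‖A i (ξ - η)‖ + ‖A i η - B η‖ + ‖B (ξ - η)‖ := by
        rw [e1]; exact (norm_sub_le _ _).trans (by gcongr; exact norm_add_le _ _)
    _ < ε := by nlinarith

theorem semigroup_of_resolvent (R : E →L[ℂ] E) (hR : IsSelfAdjoint R)
    (h0 : spectrum ℝ R ⊆ Set.Icc 0 1) (hd : DenseRange R) (Δ : Set (E × E))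
    (hΔ : ∀ ξ ζ, (ξ, ζ) ∈ Δ ↔ ξ = R (ξ + ζ)) : ∃ φ, IsSemigroupOf Δ φ := by
  let φ : ℝ≥0 → E →L[ℂ] E := fun t => if t = 0 then 1 else cfc (ff t) R
  have hφ0 : φ 0 = 1 := if_pos rfl
  have hφ : ∀ t : ℝ≥0, 0 < t → φ t = cfc (ff t) R := fun t ht => if_neg ht.ne'
  have hc : ∀ t : ℝ, ContinuousOn (ff t) (spectrum ℝ R) := fun t => (ff_cont t).continuousOn
  have hsa : ∀ t, IsSelfAdjoint (φ t) := by
    intro t
    rcases eq_or_ne t 0 with h | h
    · rw [h, hφ0]; exact IsSelfAdjoint.one _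
    · rw [hφ t (pos_iff_ne_zero.2 h)]
      exact cfc_predicate _ _
  have hn : ∀ t, ‖φ t‖ ≤ 1 := by
    intro t
    rcases eq_or_ne t 0 with h | h
    · rw [h, hφ0]; exact ContinuousLinearMap.norm_id_le
    · have ht : 0 < t := pos_iff_ne_zero.2 h
      rw [hφ t ht]
      refine norm_cfc_le zero_le_one (fun r hr => ?_)
      rw [Real.norm_eq_abs, abs_of_nonneg (ff_nonneg _ _)]
      exact ff_le_one (by exact_mod_cast ht) (h0 hr)
  -- (1 - φ t) R as a functional calculus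
  have e1 : ∀ t : ℝ≥0, 0 < t → (1 - φ t) * R = cfc (fun r : ℝ => (1 - ff t r) * r) R := by
    intro t ht
    rw [cfc_mul (fun r : ℝ => 1 - ff t r) (fun r => r) R
      ((continuous_const.sub (ff_cont t)).continuousOn) continuousOn_id,
      cfc_sub (fun _ : ℝ => (1 : ℝ)) (ff t) R continuousOn_const (hc t), cfc_const_one ℝ R,
      cfc_id' ℝ R, hφ t ht]
  have b1 : ∀ t : ℝ≥0, 0 < t → ‖(1 - φ t) * R‖ ≤ t := by
    intro t ht
    rw [e1 t ht]
    exact norm_cfc_le t.2 (fun r hr => ff_b1 (by exact_mod_cast ht) (h0 hr))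
  have b2 : ∀ t : ℝ≥0, 0 < t → ‖(t : ℝ)⁻¹ • ((1 - φ t) * R)‖ ≤ 1 := by
    intro t ht
    have ht' : (0 : ℝ) < t := by exact_mod_cast ht
    rw [norm_smul, Real.norm_eq_abs, abs_of_pos (inv_pos.2 ht'), inv_mul_le_iff₀ ht', mul_one]
    exact b1 t ht
  have b3 : ∀ t : ℝ≥0, 0 < t →
      ‖((t : ℝ)⁻¹ • ((1 - φ t) * R) - (1 - R)) * R‖ ≤ t := by
    intro t ht
    have hcc : Continuous (fun r : ℝ => (1 - ff t r) * r) :=
      (continuous_const.sub (ff_cont t)).mul continuous_id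
    have hcc2 : Continuous (fun r : ℝ => (t : ℝ)⁻¹ * ((1 - ff t r) * r)) :=
      continuous_const.mul hcc
    have hcc3 : Continuous (fun r : ℝ => (1 : ℝ) - r) := continuous_const.sub continuous_id
    have : ((t : ℝ)⁻¹ • ((1 - φ t) * R) - (1 - R)) * R =
        cfc (fun r : ℝ => ((t : ℝ)⁻¹ * ((1 - ff t r) * r) - (1 - r)) * r) R := by
      rw [cfc_mul (fun r : ℝ => (t : ℝ)⁻¹ * ((1 - ff t r) * r) - (1 - r)) (fun r => r) R
        (hcc2.sub hcc3).continuousOn continuousOn_id,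
        cfc_sub (fun r : ℝ => (t : ℝ)⁻¹ * ((1 - ff t r) * r)) (fun r : ℝ => 1 - r) R
          hcc2.continuousOn hcc3.continuousOn,
        cfc_const_mul (t : ℝ)⁻¹ (fun r : ℝ => (1 - ff t r) * r) R hcc.continuousOn,
        cfc_sub (fun _ : ℝ => (1 : ℝ)) (fun r => r) R continuousOn_const continuousOn_id,
        cfc_const_one ℝ R, cfc_id' ℝ R, e1 t ht]
    rw [this]
    exact norm_cfc_le t.2 (fun r hr => ff_b3 (by exact_mod_cast ht) (h0 hr))
  have hcoe : Tendsto (fun t : ℝ≥0 => (t : ℝ)) (𝓝[>] 0) (𝓝 0) := by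
    have : Tendsto (fun t : ℝ≥0 => (t : ℝ)) (𝓝 0) (𝓝 0) := by
      have := NNReal.continuous_coe.tendsto (0 : ℝ≥0)
      simpa using this
    exact this.mono_left nhdsWithin_le_nhds
  -- forward direction of the generator
  have hgen : ∀ η, Tendsto (fun t : ℝ≥0 => (t : ℝ)⁻¹ • (R η - φ t (R η))) (𝓝[>] 0)
      (𝓝 (η - R η)) := by
    intro η
    have h1 := tendsto_of_dense (l := 𝓝[>] (0 : ℝ≥0)) (fun t : ℝ≥0 => (t : ℝ)⁻¹ • ((1 - φ t) * R))
      (1 - R) 1 ?_ (Set.range R) hd ?_ η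
    · exact h1
    · filter_upwards [self_mem_nhdsWithin] with t ht
      exact b2 t ht
    · rintro _ ⟨ξ, rfl⟩
      rw [tendsto_iff_norm_sub_tendsto_zero]
      refine squeeze_zero' (Eventually.of_forall fun _ => norm_nonneg _) ?_
        (g := fun t : ℝ≥0 => (t : ℝ) * ‖ξ‖) (by simpa using hcoe.mul_const ‖ξ‖)
      filter_upwards [self_mem_nhdsWithin] with t ht
      have h2 : ((t : ℝ)⁻¹ • ((1 - φ t) * R)) (R ξ) - (1 - R) (R ξ) =
        (((t : ℝ)⁻¹ • ((1 - φ t) * R) - (1 - R)) * R) ξ := rfl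
      rw [h2]
      exact (ContinuousLinearMap.le_opNorm _ _).trans (by gcongr; exact b3 t ht)
  refine ⟨φ, hφ0, ?_, hn, hsa, ?_, ?_⟩
  · intro s t
    rcases eq_or_ne s 0 with hs | hs
    · rw [hs, hφ0, zero_add, one_mul]
    rcases eq_or_ne t 0 with ht | ht
    · rw [ht, hφ0, add_zero, mul_one]
    have hs' : 0 < s := pos_iff_ne_zero.2 hs
    have ht' : 0 < t := pos_iff_ne_zero.2 ht
    rw [hφ s hs', hφ t ht', hφ (s + t) (add_pos hs' ht'), ← cfc_mul _ _ _ (hc s) (hc t)]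
    apply cfc_congr
    intro r hr
    show ff ((s + t : ℝ≥0) : ℝ) r = ff s r * ff t r
    rw [NNReal.coe_add]
    exact ff_add (by exact_mod_cast hs') (by exact_mod_cast ht') (h0 hr)
  · intro ξ
    have h1 := tendsto_of_dense (l := 𝓝 (0 : ℝ≥0)) φ 1 1 (Eventually.of_forall hn)
      (Set.range R) hd ?_ ξ
    · exact h1
    · rintro _ ⟨η, rfl⟩
      rw [tendsto_iff_norm_sub_tendsto_zero]
      have hcoe' : Tendsto (fun t : ℝ≥0 => (t : ℝ)) (𝓝 0) (𝓝 0) := by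
        have := NNReal.continuous_coe.tendsto (0 : ℝ≥0)
        simpa using this
      refine squeeze_zero (fun _ => norm_nonneg _) ?_
        (g := fun t : ℝ≥0 => (t : ℝ) * ‖η‖) (by simpa using hcoe'.mul_const ‖η‖)
      intro t
      rcases eq_or_ne t 0 with ht | ht
      · rw [ht, hφ0]; simp
      have h2 : φ t (R η) - (1 : E →L[ℂ] E) (R η) = -(((1 - φ t) * R) η) := by
        show φ t (R η) - R η = -(R η - φ t (R η))
        abel
      rw [h2, norm_neg]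
      exact (ContinuousLinearMap.le_opNorm _ _).trans
        (by gcongr; exact b1 t (pos_iff_ne_zero.2 ht))
  · intro ξ ζ
    rw [hΔ]
    constructor
    · intro h
      have h1 := hgen (ξ + ζ)
      rw [← h] at h1
      simpa using h1
    · intro h
      set ξ' := R (ξ + ζ) with hξ'
      have h1 := hgen (ξ + ζ)
      rw [← hξ'] at h1
      have h2 := h.sub h1
      have h3 : ∀ t : ℝ≥0, (t : ℝ)⁻¹ • (ξ - φ t ξ) - (t : ℝ)⁻¹ • (ξ' - φ t ξ') =
          (t : ℝ)⁻¹ • ((ξ - ξ') - φ t (ξ - ξ')) := by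
        intro t
        rw [← smul_sub, map_sub]
        congr 1
        abel
      simp only [h3] at h2
      have h4 : ζ - (ξ + ζ - ξ') = -(ξ - ξ') := by abel
      rw [h4] at h2
      have h5 : Tendsto (fun t : ℝ≥0 => (⟪ξ - ξ', (t : ℝ)⁻¹ • ((ξ - ξ') - φ t (ξ - ξ'))⟫_ℂ).re)
          (𝓝[>] 0) (𝓝 (⟪ξ - ξ', -(ξ - ξ')⟫_ℂ).re) :=
        (Complex.continuous_re.tendsto _).comp (tendsto_const_nhds.inner h2)
      have h6 : 0 ≤ (⟪ξ - ξ', -(ξ - ξ')⟫_ℂ).re := by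
        refine ge_of_tendsto h5 ?_
        filter_upwards [self_mem_nhdsWithin] with t ht
        have ht' : (0 : ℝ) < t := by exact_mod_cast ht
        rw [inner_smul_right_eq_smul, Complex.real_smul, Complex.re_ofReal_mul]
        refine mul_nonneg (inv_pos.2 ht').le ?_
        rw [inner_sub_right, Complex.sub_re]
        have h7 : (⟪ξ - ξ', ξ - ξ'⟫_ℂ).re = ‖ξ - ξ'‖ ^ 2 := by
          rw [inner_self_eq_norm_sq_to_K]; norm_cast
        have h8 : (⟪ξ - ξ', φ t (ξ - ξ')⟫_ℂ).re ≤ ‖ξ - ξ'‖ * ‖φ t (ξ - ξ')‖ :=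
          (Complex.re_le_norm _).trans (norm_inner_le_norm _ _)
        have h9 : ‖φ t (ξ - ξ')‖ ≤ ‖ξ - ξ'‖ := by
          have := ((φ t).le_opNorm (ξ - ξ')).trans
            (mul_le_mul_of_nonneg_right (hn t) (norm_nonneg _))
          rwa [one_mul] at this
        nlinarith [norm_nonneg (ξ - ξ')]
      rw [inner_neg_right, inner_self_eq_norm_sq_to_K, Complex.neg_re] at h6
      have h10 : ‖ξ - ξ'‖ ^ 2 ≤ 0 := by
        have : ((‖ξ - ξ'‖ : ℂ) ^ 2).re = ‖ξ - ξ'‖ ^ 2 := by norm_cast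
        have h11 : 0 ≤ -((‖ξ - ξ'‖ : ℂ) ^ 2).re := h6
        rw [this] at h11
        linarith
      have h12 : ‖ξ - ξ'‖ = 0 := by nlinarith [norm_nonneg (ξ - ξ')]
      exact sub_eq_zero.1 (norm_eq_zero.1 h12)

end Pool.Agent.H768R2.FQ
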