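import Pool.Agent.H768R2.FQ.Defs

set_option autoImplicit false

open scoped InnerProductSpace TensorProduct Topology NNReal
open Filter

namespace Pool.Agent.H768R2.FQ

universe u

variable {K : Type u} [NormedAddCommGroup K] [InnerProductSpace ℂ K] [CompleteSpace K]
variable {N : VonNeumannAlgebra K} (τ : TraceState N)

/-- the identity map from `N` to its copy with the inner product of the trace -/
noncomputable def toPre : Elt N ≃ₗ[ℂ] Pre τ := LinearEquiv.refl ℂ (Elt N)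

theorem pre_inner (a b : Elt N) : ⟪toPre τ a, toPre τ b⟫_ℂ = τ.toFun (star a * b) := rfl

theorem hat_eq (a : Elt N) : hat τ a = ((toPre τ a : Pre τ) : L2 τ) := rfl

theorem hat_inner (a b : Elt N) : ⟪hat τ a, hat τ b⟫_ℂ = τ.toFun (star a * b) := by
  rw [hat_eq, hat_eq, UniformSpace.Completion.inner_coe, pre_inner]

theorem hat_add (a b : Elt N) : hat τ (a + b) = hat τ a + hat τ b := by
  rw [hat_eq, hat_eq, hat_eq, map_add, UniformSpace.Completion.coe_add]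

theorem hat_smul (c : ℂ) (a : Elt N) : hat τ (c • a) = c • hat τ a := by
  rw [hat_eq, hat_eq, map_smul, UniformSpace.Completion.coe_smul]

theorem hat_neg (a : Elt N) : hat τ (-a) = -hat τ a := by
  have := hat_smul τ (-1) a
  simpa using this

theorem hat_sub (a b : Elt N) : hat τ (a - b) = hat τ a - hat τ b := by
  rw [sub_eq_add_neg, hat_add, hat_neg, sub_eq_add_neg]

theorem hat_dense : DenseRange (hat τ) := by
  have h : DenseRange (fun a : Pre τ => (a : L2 τ)) := UniformSpace.Completion.denseRange_coe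
  exact h

theorem hat_norm_sq (a : Elt N) : ((‖hat τ a‖ : ℝ) : ℂ) ^ 2 = τ.toFun (star a * a) := by
  rw [← hat_inner, inner_self_eq_norm_sq_to_K]
  norm_cast

theorem pre_norm_mul_left (a b : Elt N) :
    ‖toPre τ (a * b)‖ ≤ ‖(a : K →L[ℂ] K)‖ * ‖toPre τ b‖ := by
  obtain ⟨ξ, hξ, h⟩ := τ.normal
  have e : ∀ c : Elt N, ‖toPre τ c‖ ^ 2 = ∑' k, ‖(c : K →L[ℂ] K) (ξ k)‖ ^ 2 := by
    intro c
    have h1 : ((‖toPre τ c‖ : ℝ) : ℂ) ^ 2 = τ.toFun (star c * c) := by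
      rw [← pre_inner, inner_self_eq_norm_sq_to_K]
      norm_cast
    rw [τ.norm_sq_eq ξ h] at h1
    exact_mod_cast h1
  have hs : ∀ c : Elt N, Summable (fun k => ‖(c : K →L[ℂ] K) (ξ k)‖ ^ 2) := by
    intro c
    refine Summable.of_nonneg_of_le (fun k => by positivity) (fun k => ?_)
      (hξ.mul_left (‖(c : K →L[ℂ] K)‖ ^ 2))
    rw [← mul_pow]
    exact pow_le_pow_left₀ (norm_nonneg _) ((c : K →L[ℂ] K).le_opNorm _) 2
  rw [← abs_of_nonneg (norm_nonneg (toPre τ (a * b))),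
    ← abs_of_nonneg (mul_nonneg (norm_nonneg (a : K →L[ℂ] K)) (norm_nonneg (toPre τ b))),
    ← sq_le_sq, mul_pow, e, e, ← tsum_mul_left]
  refine (hs _).tsum_le_tsum (fun k => ?_) ((hs _).mul_left _)
  rw [← mul_pow]
  exact pow_le_pow_left₀ (norm_nonneg _) ((a : K →L[ℂ] K).le_opNorm _) 2

theorem pre_norm_star (a : Elt N) : ‖toPre τ (star a)‖ = ‖toPre τ a‖ := by
  have h1 : ∀ c : Elt N, ((‖toPre τ c‖ : ℝ) : ℂ) ^ 2 = τ.toFun (star c * c) := by
    intro c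
    rw [← pre_inner, inner_self_eq_norm_sq_to_K]
    norm_cast
  have h2 : ((‖toPre τ (star a)‖ : ℝ) : ℂ) ^ 2 = ((‖toPre τ a‖ : ℝ) : ℂ) ^ 2 := by
    rw [h1, h1, star_star, τ.tracial]
  have h3 : ‖toPre τ (star a)‖ ^ 2 = ‖toPre τ a‖ ^ 2 := by exact_mod_cast h2
  exact (pow_left_inj₀ (norm_nonneg _) (norm_nonneg _) two_ne_zero).1 h3

theorem norm_star_coe (a : Elt N) : ‖((star a : Elt N) : K →L[ℂ] K)‖ = ‖(a : K →L[ℂ] K)‖ := by
  show ‖star (a : K →L[ℂ] K)‖ = _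
  exact norm_star _

theorem pre_norm_mul_right (a b : Elt N) :
    ‖toPre τ (b * a)‖ ≤ ‖(a : K →L[ℂ] K)‖ * ‖toPre τ b‖ := by
  rw [← pre_norm_star, star_mul, ← norm_star_coe a, ← pre_norm_star τ b]
  exact pre_norm_mul_left τ (star a) (star b)

/-- left multiplication on `N` -/
noncomputable def preL (a : Elt N) : Pre τ →L[ℂ] Pre τ :=
  LinearMap.mkContinuous ((toPre τ).toLinearMap ∘ₗ LinearMap.mulLeft ℂ a ∘ₗ
    (toPre τ).symm.toLinearMap) ‖(a : K →L[ℂ] K)‖ (fun b => pre_norm_mul_left τ a ((toPre τ).symm b))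

/-- right multiplication on `N` -/
noncomputable def preR (a : Elt N) : Pre τ →L[ℂ] Pre τ :=
  LinearMap.mkContinuous ((toPre τ).toLinearMap ∘ₗ LinearMap.mulRight ℂ a ∘ₗ
    (toPre τ).symm.toLinearMap) ‖(a : K →L[ℂ] K)‖ (fun b => pre_norm_mul_right τ a ((toPre τ).symm b))

/-- left multiplication by `a` on `L²(N)` -/
noncomputable def lmul (a : Elt N) : L2 τ →L[ℂ] L2 τ := (preL τ a).completion

/-- right multiplication by `a` on `L²(N)` -/
noncomputable def rmul (a : Elt N) : L2 τ →L[ℂ] L2 τ := (preR τ a).completion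

theorem lmul_hat (a b : Elt N) : lmul τ a (hat τ b) = hat τ (a * b) := by
  rw [hat_eq, lmul]
  exact ContinuousLinearMap.completion_apply_coe _ _

theorem rmul_hat (a b : Elt N) : rmul τ a (hat τ b) = hat τ (b * a) := by
  rw [hat_eq, rmul]
  exact ContinuousLinearMap.completion_apply_coe _ _

theorem ext_hat {F : Type*} [NormedAddCommGroup F] [NormedSpace ℂ F] {S T : L2 τ →L[ℂ] F}
    (h : ∀ a, S (hat τ a) = T (hat τ a)) : S = T := by
  apply ContinuousLinearMap.ext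
  intro ξ
  exact congrFun (DenseRange.equalizer (hat_dense τ) S.continuous T.continuous (funext h)) ξ

theorem lmul_norm_apply (a : Elt N) (ξ : L2 τ) : ‖lmul τ a ξ‖ ≤ ‖(a : K →L[ℂ] K)‖ * ‖ξ‖ := by
  refine (hat_dense τ).induction_on (p := fun ξ => ‖lmul τ a ξ‖ ≤ ‖(a : K →L[ℂ] K)‖ * ‖ξ‖) ξ
    (isClosed_le (by fun_prop) (by fun_prop)) (fun b => ?_)
  rw [lmul_hat, hat_eq, hat_eq, UniformSpace.Completion.norm_coe, UniformSpace.Completion.norm_coe]
  exact pre_norm_mul_left τ a b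

theorem rmul_norm_apply (a : Elt N) (ξ : L2 τ) : ‖rmul τ a ξ‖ ≤ ‖(a : K →L[ℂ] K)‖ * ‖ξ‖ := by
  refine (hat_dense τ).induction_on (p := fun ξ => ‖rmul τ a ξ‖ ≤ ‖(a : K →L[ℂ] K)‖ * ‖ξ‖) ξ
    (isClosed_le (by fun_prop) (by fun_prop)) (fun b => ?_)
  rw [rmul_hat, hat_eq, hat_eq, UniformSpace.Completion.norm_coe, UniformSpace.Completion.norm_coe]
  exact pre_norm_mul_right τ a b

theorem lmul_mul (a b : Elt N) (ξ : L2 τ) : lmul τ (a * b) ξ = lmul τ a (lmul τ b ξ) := by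
  have : lmul τ (a * b) = lmul τ a ∘L lmul τ b := ext_hat τ (fun c => by
    rw [ContinuousLinearMap.comp_apply, lmul_hat, lmul_hat, lmul_hat, mul_assoc])
  rw [this]; rfl

theorem rmul_mul (a b : Elt N) (ξ : L2 τ) : rmul τ (a * b) ξ = rmul τ b (rmul τ a ξ) := by
  have : rmul τ (a * b) = rmul τ b ∘L rmul τ a := ext_hat τ (fun c => by
    rw [ContinuousLinearMap.comp_apply, rmul_hat, rmul_hat, rmul_hat, mul_assoc])
  rw [this]; rfl

theorem lmul_rmul (a b : Elt N) (ξ : L2 τ) : lmul τ a (rmul τ b ξ) = rmul τ b (lmul τ a ξ) := by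
  have : lmul τ a ∘L rmul τ b = rmul τ b ∘L lmul τ a := ext_hat τ (fun c => by
    rw [ContinuousLinearMap.comp_apply, ContinuousLinearMap.comp_apply, lmul_hat, rmul_hat,
      rmul_hat, lmul_hat, mul_assoc])
  exact congrArg (fun T : L2 τ →L[ℂ] L2 τ => T ξ) this

theorem lmul_one (ξ : L2 τ) : lmul τ 1 ξ = ξ := by
  have : lmul τ 1 = ContinuousLinearMap.id ℂ (L2 τ) := ext_hat τ (fun c => by
    rw [lmul_hat, one_mul]; rfl)
  rw [this]; rfl

theorem rmul_one (ξ : L2 τ) : rmul τ 1 ξ = ξ := by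
  have : rmul τ 1 = ContinuousLinearMap.id ℂ (L2 τ) := ext_hat τ (fun c => by
    rw [rmul_hat, mul_one]; rfl)
  rw [this]; rfl

theorem lmul_add (a b : Elt N) (ξ : L2 τ) : lmul τ (a + b) ξ = lmul τ a ξ + lmul τ b ξ := by
  have : lmul τ (a + b) = lmul τ a + lmul τ b := ext_hat τ (fun c => by
    rw [add_apply, lmul_hat, lmul_hat, lmul_hat, add_mul, hat_add])
  rw [this]; rfl

theorem rmul_add (a b : Elt N) (ξ : L2 τ) : rmul τ (a + b) ξ = rmul τ a ξ + rmul τ b ξ := by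
  have : rmul τ (a + b) = rmul τ a + rmul τ b := ext_hat τ (fun c => by
    rw [add_apply, rmul_hat, rmul_hat, rmul_hat, mul_add, hat_add])
  rw [this]; rfl

theorem lmul_smul (c : ℂ) (a : Elt N) (ξ : L2 τ) : lmul τ (c • a) ξ = c • lmul τ a ξ := by
  have : lmul τ (c • a) = c • lmul τ a := ext_hat τ (fun b => by
    rw [smul_apply, lmul_hat, lmul_hat, smul_mul_assoc, hat_smul])
  rw [this]; rfl

theorem rmul_smul (c : ℂ) (a : Elt N) (ξ : L2 τ) : rmul τ (c • a) ξ = c • rmul τ a ξ := by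
  have : rmul τ (c • a) = c • rmul τ a := ext_hat τ (fun b => by
    rw [smul_apply, rmul_hat, rmul_hat, mul_smul_comm, hat_smul])
  rw [this]; rfl

theorem lmul_inner (a : Elt N) (ξ η : L2 τ) : ⟪lmul τ a ξ, η⟫_ℂ = ⟪ξ, lmul τ (star a) η⟫_ℂ := by
  refine (hat_dense τ).induction_on (p := fun ξ => ⟪lmul τ a ξ, η⟫_ℂ = ⟪ξ, lmul τ (star a) η⟫_ℂ) ξ
    (isClosed_eq (by fun_prop) (by fun_prop)) (fun b => ?_)
  refine (hat_dense τ).induction_on
    (p := fun η => ⟪lmul τ a (hat τ b), η⟫_ℂ = ⟪hat τ b, lmul τ (star a) η⟫_ℂ) η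
    (isClosed_eq (by fun_prop) (by fun_prop)) (fun c => ?_)
  rw [lmul_hat, lmul_hat, hat_inner, hat_inner, star_mul, mul_assoc]

theorem rmul_inner (a : Elt N) (ξ η : L2 τ) : ⟪rmul τ a ξ, η⟫_ℂ = ⟪ξ, rmul τ (star a) η⟫_ℂ := by
  refine (hat_dense τ).induction_on (p := fun ξ => ⟪rmul τ a ξ, η⟫_ℂ = ⟪ξ, rmul τ (star a) η⟫_ℂ) ξ
    (isClosed_eq (by fun_prop) (by fun_prop)) (fun b => ?_)
  refine (hat_dense τ).induction_on
    (p := fun η => ⟪rmul τ a (hat τ b), η⟫_ℂ = ⟪hat τ b, rmul τ (star a) η⟫_ℂ) η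
    (isClosed_eq (by fun_prop) (by fun_prop)) (fun c => ?_)
  rw [rmul_hat, rmul_hat, hat_inner, hat_inner, star_mul, mul_assoc, τ.tracial, mul_assoc]

end Pool.Agent.H768R2.FQ
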