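import Pool.Agent.H768R2.FQ.Inv

set_option autoImplicit false

open scoped InnerProductSpace TensorProduct Topology NNReal
open Filter

namespace Pool.Agent.H768R2.FQ

universe u

variable {K : Type u} [NormedAddCommGroup K] [InnerProductSpace ℂ K] [CompleteSpace K]
variable {N : VonNeumannAlgebra K} (τ : TraceState N)
variable {m : ℕ} (x : Fin m → Elt N)

/-- `(ξ, α) ↦ (ξ, α e_i)` -/
noncomputable def gradInj (i : Fin m) :
    (L2 τ × L2T τ) →L[ℂ] (L2 τ × PiLp 2 (fun _ : Fin m => L2T τ)) :=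
  (ContinuousLinearMap.fst ℂ _ _).prod
    (((PiLp.continuousLinearEquiv 2 ℂ (fun _ : Fin m => L2T τ)).symm :
      (∀ _ : Fin m, L2T τ) →L[ℂ] PiLp 2 (fun _ : Fin m => L2T τ)) ∘L
      (ContinuousLinearMap.single ℂ (fun _ : Fin m => L2T τ) i) ∘L ContinuousLinearMap.snd ℂ _ _)

theorem gradInj_apply (i : Fin m) (ξ : L2 τ) (α : L2T τ) :
    gradInj τ i (ξ, α) = (ξ, WithLp.toLp 2 (Pi.single i α : ∀ _ : Fin m, L2T τ)) := rfl

/-- the right operator on the whole gradient -/
noncomputable def gradRight (i : Fin m) (a : Elt N) (c : ℂ) :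
    (L2 τ × PiLp 2 (fun _ : Fin m => L2T τ)) →L[ℂ] (L2 τ × PiLp 2 (fun _ : Fin m => L2T τ)) :=
  (rmul τ a ∘L ContinuousLinearMap.fst ℂ _ _).prod
    (((PiLp.continuousLinearEquiv 2 ℂ (fun _ : Fin m => L2T τ)).symm :
      (∀ _ : Fin m, L2T τ) →L[ℂ] PiLp 2 (fun _ : Fin m => L2T τ)) ∘L
      ContinuousLinearMap.pi (fun j =>
        rmulT τ a ∘L ContinuousLinearMap.proj j ∘L
          ((PiLp.continuousLinearEquiv 2 ℂ (fun _ : Fin m => L2T τ)) :
            PiLp 2 (fun _ : Fin m => L2T τ) →L[ℂ] (∀ _ : Fin m, L2T τ)) ∘L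
          ContinuousLinearMap.snd ℂ _ _ +
        if i = j then c • (tensR τ (hat τ 1) ∘L ContinuousLinearMap.fst ℂ _ _) else 0))

theorem gradRight_fst (i : Fin m) (a : Elt N) (c : ℂ) (v) :
    (gradRight τ i a c v).1 = rmul τ a v.1 := rfl

theorem gradRight_snd (i : Fin m) (a : Elt N) (c : ℂ) (v) (j : Fin m) :
    (gradRight τ i a c v).2 j = rmulT τ a (v.2 j) +
      if i = j then c • tens τ v.1 (hat τ 1) else 0 := by
  by_cases h : i = j
  · show ((rmulT τ a ∘L ContinuousLinearMap.proj j ∘L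
          ((PiLp.continuousLinearEquiv 2 ℂ (fun _ : Fin m => L2T τ)) :
            PiLp 2 (fun _ : Fin m => L2T τ) →L[ℂ] (∀ _ : Fin m, L2T τ)) ∘L
          ContinuousLinearMap.snd ℂ (L2 τ) (PiLp 2 (fun _ : Fin m => L2T τ)) +
        if i = j then c • (tensR τ (hat τ 1) ∘L ContinuousLinearMap.fst ℂ _ _) else 0) :
        (L2 τ × PiLp 2 (fun _ : Fin m => L2T τ)) →L[ℂ] L2T τ) v = _
    rw [if_pos h, if_pos h]
    rfl
  · show ((rmulT τ a ∘L ContinuousLinearMap.proj j ∘L
          ((PiLp.continuousLinearEquiv 2 ℂ (fun _ : Fin m => L2T τ)) :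
            PiLp 2 (fun _ : Fin m => L2T τ) →L[ℂ] (∀ _ : Fin m, L2T τ)) ∘L
          ContinuousLinearMap.snd ℂ (L2 τ) (PiLp 2 (fun _ : Fin m => L2T τ)) +
        if i = j then c • (tensR τ (hat τ 1) ∘L ContinuousLinearMap.fst ℂ _ _) else 0) :
        (L2 τ × PiLp 2 (fun _ : Fin m => L2T τ)) →L[ℂ] L2T τ) v = _
    rw [if_neg h, if_neg h]
    rfl

theorem gradRight_gradGraph (i : Fin m) (d : ℂ) (v)
    (hv : v ∈ (gradGraph τ x).topologicalClosure) :
    gradRight τ i (d • x i) d v ∈ (gradGraph τ x).topologicalClosure := by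
  refine map_mem_closure (gradRight τ i (d • x i) d).continuous hv ?_
  intro v hv
  induction hv using Submodule.span_induction with
  | mem v hv =>
    obtain ⟨w, rfl⟩ := hv
    have h1 : gradRight τ i (d • x i) d
          (hat τ (mono x w), WithLp.toLp 2 (fun j => fdq τ x j w)) =
        d • (hat τ (mono x (w ++ [i])), WithLp.toLp 2 (fun j => fdq τ x j (w ++ [i]))) := by
      apply Prod.ext
      · rw [gradRight_fst, rmul_hat, mul_smul_comm, hat_smul, mono_snoc]
        rfl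
      · apply PiLp.ext
        intro j
        rw [gradRight_snd]
        show rmulT τ (d • x i) (fdq τ x j w) +
          (if i = j then d • tens τ (hat τ (mono x w)) (hat τ 1) else 0) =
          d • fdq τ x j (w ++ [i])
        rw [fdq_snoc, rmulT_smul, smul_add]
        congr 1
        split_ifs
        · rfl
        · rw [smul_zero]
    rw [h1]
    exact Submodule.smul_mem _ _ (Submodule.subset_span ⟨_, rfl⟩)
  | zero => rw [map_zero]; exact Submodule.zero_mem _
  | add v w _ _ h1 h2 => rw [map_add]; exact Submodule.add_mem _ h1 h2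
  | smul c v _ h1 => rw [map_smul]; exact Submodule.smul_mem _ _ h1

/-- the pairs `(ξ, α)` with `(ξ, α e_i)` in the closure of the gradient -/
noncomputable def gradI (i : Fin m) : Submodule ℂ (L2 τ × L2T τ) :=
  (gradGraph τ x).topologicalClosure.comap (gradInj τ i : (L2 τ × L2T τ) →ₗ[ℂ] _)

theorem gradI_closed (i : Fin m) : IsClosed (gradI τ x i : Set (L2 τ × L2T τ)) :=
  (Submodule.isClosed_topologicalClosure (gradGraph τ x)).preimage (gradInj τ i).continuous

theorem gradI_mem (i : Fin m) (v : L2 τ × L2T τ) :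
    v ∈ gradI τ x i ↔ gradInj τ i v ∈ (gradGraph τ x).topologicalClosure := Iff.rfl

theorem gradI_one (i : Fin m) : (hat τ 1, (0 : L2T τ)) ∈ gradI τ x i := by
  rw [gradI_mem, gradInj_apply, Pi.single_zero]
  apply Submodule.le_topologicalClosure
  apply Submodule.subset_span
  refine ⟨[], ?_⟩
  simp only [mono_nil, fdq_nil]
  rfl

theorem gradI_right (i : Fin m) (d : ℂ) (v) (hv : v ∈ gradI τ x i) :
    rightOp τ (d • x i) d v ∈ gradI τ x i := by
  rw [gradI_mem] at hv ⊢
  have h1 := gradRight_gradGraph τ x i d _ hv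
  have h2 : gradRight τ i (d • x i) d (gradInj τ i v) = gradInj τ i (rightOp τ (d • x i) d v) := by
    obtain ⟨ξ, α⟩ := v
    rw [rightOp_apply, gradInj_apply, gradInj_apply]
    apply Prod.ext
    · rfl
    · apply PiLp.ext
      intro j
      rw [gradRight_snd]
      show rmulT τ (d • x i) ((Pi.single i α : ∀ _ : Fin m, L2T τ) j) +
        (if i = j then d • tens τ ξ (hat τ 1) else 0) =
        (Pi.single i (rmulT τ (d • x i) α + d • tens τ ξ (hat τ 1)) : ∀ _ : Fin m, L2T τ) j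
      by_cases h : i = j
      · subst h
        rw [if_pos rfl, Pi.single_eq_same, Pi.single_eq_same]
      · rw [if_neg h, Pi.single_eq_of_ne (Ne.symm h), Pi.single_eq_of_ne (Ne.symm h), map_zero,
          add_zero]
  rw [← h2]
  exact h1

theorem gradI_resolvent (i : Fin m) (d c : ℂ) (hc : ‖c‖ = 1)
    (hd : ‖((d • x i : Elt N) : K →L[ℂ] K)‖ + ‖d‖ ≤ 1 / 2) (s : Elt N)
    (hs : s * (d • x i + c • 1) = 1) (ξ : L2 τ) (α : L2T τ) (h : (ξ, α) ∈ gradI τ x i) :
    (rmul τ s ξ, rmulT τ s α - d • tens τ (rmul τ s ξ) (hat τ s)) ∈ gradI τ x i := by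
  refine mem_of_resolvent _ (gradI_closed τ x i) (rightOp τ (d • x i) d)
    (rightOp_norm τ _ _ hd) (gradI_right τ x i d) c hc _ ?_
  rw [rightOp_resolvent τ (d • x i) s d c hs]
  exact h

end Pool.Agent.H768R2.FQ
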