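import Pool.Agent.H768R2.FQ.Words

set_option autoImplicit false

open scoped InnerProductSpace TensorProduct Topology NNReal
open Filter

namespace Pool.Agent.H768R2.FQ

universe u

/-- a closed subspace invariant under a small operator is invariant under the resolvent -/
theorem mem_of_resolvent {V : Type*} [NormedAddCommGroup V] [NormedSpace ℂ V] (S : Submodule ℂ V)
    (hS : IsClosed (S : Set V)) (Φ : V →L[ℂ] V) (hΦ : ∀ v, ‖Φ v‖ ≤ (1 / 2) * ‖v‖)
    (hinv : ∀ v ∈ S, Φ v ∈ S) (c : ℂ) (hc : ‖c‖ = 1) (v : V) (hv : Φ v + c • v ∈ S) : v ∈ S := by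
  have hc0 : c ≠ 0 := by
    intro h; rw [h, norm_zero] at hc; exact zero_ne_one hc
  let Z : V →L[ℂ] V := (-c⁻¹) • Φ
  have hZn : ∀ v, ‖Z v‖ ≤ (1 / 2) * ‖v‖ := by
    intro v
    show ‖(-c⁻¹) • Φ v‖ ≤ _
    rw [norm_smul, norm_neg, norm_inv, hc, inv_one, one_mul]
    exact hΦ v
  have hZS : ∀ v ∈ S, Z v ∈ S := fun v hv => S.smul_mem _ (hinv v hv)
  have hZkS : ∀ (k : ℕ), ∀ v ∈ S, (Z ^ k) v ∈ S := by
    intro k
    induction k with
    | zero => intro v hv; simpa using hv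
    | succ k ih =>
      intro v hv
      rw [pow_succ]
      exact ih _ (hZS v hv)
  have h1 : v - Z v ∈ S := by
    have : v - Z v = c⁻¹ • (Φ v + c • v) := by
      show v - (-c⁻¹) • Φ v = _
      rw [smul_add, smul_smul, inv_mul_cancel₀ hc0, one_smul, neg_smul, sub_neg_eq_add, add_comm]
    rw [this]
    exact S.smul_mem _ hv
  have h2 : ∀ k : ℕ, v - (Z ^ k) v ∈ S := by
    intro k
    induction k with
    | zero => simp
    | succ k ih =>
      have : v - (Z ^ (k + 1)) v = (v - (Z ^ k) v) + (Z ^ k) (v - Z v) := by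
        rw [map_sub, pow_succ]
        show v - (Z ^ k) (Z v) = _
        abel
      rw [this]
      exact S.add_mem ih (hZkS k _ h1)
  have h3 : ∀ k : ℕ, ‖(Z ^ k) v‖ ≤ (1 / 2) ^ k * ‖v‖ := by
    intro k
    induction k with
    | zero => simp
    | succ k ih =>
      rw [pow_succ']
      show ‖Z ((Z ^ k) v)‖ ≤ _
      refine (hZn _).trans ?_
      rw [pow_succ]
      linarith
  have h4 : Tendsto (fun k : ℕ => (Z ^ k) v) atTop (𝓝 0) := by
    rw [tendsto_zero_iff_norm_tendsto_zero]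
    refine squeeze_zero (fun _ => norm_nonneg _) h3 ?_
    have := (tendsto_pow_atTop_nhds_zero_of_lt_one (r := (1 / 2 : ℝ)) (by norm_num)
      (by norm_num)).mul_const ‖v‖
    simpa using this
  have h5 : Tendsto (fun k : ℕ => v - (Z ^ k) v) atTop (𝓝 v) := by
    simpa using tendsto_const_nhds.sub h4
  exact hS.mem_of_tendsto h5 (Eventually.of_forall h2)

variable {K : Type u} [NormedAddCommGroup K] [InnerProductSpace ℂ K] [CompleteSpace K]
variable {N : VonNeumannAlgebra K} (τ : TraceState N)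

/-- `(ξ, α) ↦ (ξ a, α a + c ξ ⊗ 1)` -/
noncomputable def rightOp (a : Elt N) (c : ℂ) : (L2 τ × L2T τ) →L[ℂ] (L2 τ × L2T τ) :=
  (rmul τ a ∘L ContinuousLinearMap.fst ℂ _ _).prod
    (rmulT τ a ∘L ContinuousLinearMap.snd ℂ _ _ +
      c • (tensR τ (hat τ 1) ∘L ContinuousLinearMap.fst ℂ _ _))

/-- `(ξ, α) ↦ (a ξ, a α + c 1 ⊗ ξ)` -/
noncomputable def leftOp (a : Elt N) (c : ℂ) : (L2 τ × L2T τ) →L[ℂ] (L2 τ × L2T τ) :=
  (lmul τ a ∘L ContinuousLinearMap.fst ℂ _ _).prod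
    (lmulT τ a ∘L ContinuousLinearMap.snd ℂ _ _ +
      c • (tensL τ (hat τ 1) ∘L ContinuousLinearMap.fst ℂ _ _))

theorem rightOp_apply (a : Elt N) (c : ℂ) (ξ : L2 τ) (α : L2T τ) :
    rightOp τ a c (ξ, α) = (rmul τ a ξ, rmulT τ a α + c • tens τ ξ (hat τ 1)) := rfl

theorem leftOp_apply (a : Elt N) (c : ℂ) (ξ : L2 τ) (α : L2T τ) :
    leftOp τ a c (ξ, α) = (lmul τ a ξ, lmulT τ a α + c • tens τ (hat τ 1) ξ) := rfl

theorem hat_one_norm : ‖hat τ 1‖ = 1 := by
  have h := hat_norm_sq τ 1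
  rw [star_one, mul_one, τ.one] at h
  have h2 : ‖hat τ 1‖ ^ 2 = 1 := by exact_mod_cast h
  nlinarith [norm_nonneg (hat τ 1)]

theorem rightOp_norm (a : Elt N) (c : ℂ) (h : ‖(a : K →L[ℂ] K)‖ + ‖c‖ ≤ 1 / 2)
    (v : L2 τ × L2T τ) : ‖rightOp τ a c v‖ ≤ (1 / 2) * ‖v‖ := by
  obtain ⟨ξ, α⟩ := v
  rw [rightOp_apply, Prod.norm_def, Prod.norm_def]
  have h0 : 0 ≤ ‖c‖ := norm_nonneg _
  have h0' : 0 ≤ ‖(a : K →L[ℂ] K)‖ := norm_nonneg _
  set M := max ‖ξ‖ ‖α‖ with hM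
  have hξ : ‖ξ‖ ≤ M := le_max_left _ _
  have hα : ‖α‖ ≤ M := le_max_right _ _
  have hM0 : 0 ≤ M := (norm_nonneg _).trans hξ
  refine max_le ?_ ?_
  · calc ‖rmul τ a ξ‖ ≤ ‖(a : K →L[ℂ] K)‖ * ‖ξ‖ := rmul_norm_apply τ a ξ
      _ ≤ (1 / 2) * M := by gcongr; linarith
  · calc ‖rmulT τ a α + c • tens τ ξ (hat τ 1)‖ ≤ ‖(a : K →L[ℂ] K)‖ * ‖α‖ + ‖c‖ * ‖ξ‖ := by
          refine (norm_add_le _ _).trans (add_le_add (rmulT_norm_apply τ a α) ?_)
          rw [norm_smul, tens_norm, hat_one_norm, mul_one]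
      _ ≤ ‖(a : K →L[ℂ] K)‖ * M + ‖c‖ * M := by gcongr
      _ = (‖(a : K →L[ℂ] K)‖ + ‖c‖) * M := by ring
      _ ≤ (1 / 2) * M := by gcongr

theorem leftOp_norm (a : Elt N) (c : ℂ) (h : ‖(a : K →L[ℂ] K)‖ + ‖c‖ ≤ 1 / 2)
    (v : L2 τ × L2T τ) : ‖leftOp τ a c v‖ ≤ (1 / 2) * ‖v‖ := by
  obtain ⟨ξ, α⟩ := v
  rw [leftOp_apply, Prod.norm_def, Prod.norm_def]
  have h0 : 0 ≤ ‖c‖ := norm_nonneg _
  have h0' : 0 ≤ ‖(a : K →L[ℂ] K)‖ := norm_nonneg _
  set M := max ‖ξ‖ ‖α‖ with hM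
  have hξ : ‖ξ‖ ≤ M := le_max_left _ _
  have hα : ‖α‖ ≤ M := le_max_right _ _
  have hM0 : 0 ≤ M := (norm_nonneg _).trans hξ
  refine max_le ?_ ?_
  · calc ‖lmul τ a ξ‖ ≤ ‖(a : K →L[ℂ] K)‖ * ‖ξ‖ := lmul_norm_apply τ a ξ
      _ ≤ (1 / 2) * M := by gcongr; linarith
  · calc ‖lmulT τ a α + c • tens τ (hat τ 1) ξ‖ ≤ ‖(a : K →L[ℂ] K)‖ * ‖α‖ + ‖c‖ * ‖ξ‖ := by
          refine (norm_add_le _ _).trans (add_le_add (lmulT_norm_apply τ a α) ?_)
          rw [norm_smul, tens_norm, hat_one_norm, one_mul]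
      _ ≤ ‖(a : K →L[ℂ] K)‖ * M + ‖c‖ * M := by gcongr
      _ = (‖(a : K →L[ℂ] K)‖ + ‖c‖) * M := by ring
      _ ≤ (1 / 2) * M := by gcongr

/-- the resolvent identity for the right operator -/
theorem rightOp_resolvent (y s : Elt N) (d c : ℂ) (hs : s * (y + c • 1) = 1) (ξ : L2 τ)
    (α : L2T τ) : rightOp τ y d (rmul τ s ξ, rmulT τ s α - d • tens τ (rmul τ s ξ) (hat τ s)) +
      c • (rmul τ s ξ, rmulT τ s α - d • tens τ (rmul τ s ξ) (hat τ s)) = (ξ, α) := by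
  have e1 : ∀ η : L2 τ, rmul τ y (rmul τ s η) + c • rmul τ s η = η := by
    intro η
    have : rmul τ (s * (y + c • 1)) η = η := by rw [hs, rmul_one]
    rw [rmul_mul, rmul_add, rmul_smul, rmul_one] at this
    exact this
  have e2 : ∀ η : L2T τ, rmulT τ y (rmulT τ s η) + c • rmulT τ s η = η := by
    intro η
    have : rmulT τ (s * (y + c • 1)) η = η := by rw [hs, rmulT_one]
    rw [rmulT_mul, rmulT_add, rmulT_smul, rmulT_one] at this
    exact this
  rw [rightOp_apply]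
  apply Prod.ext
  · exact e1 ξ
  · show rmulT τ y (rmulT τ s α - d • tens τ (rmul τ s ξ) (hat τ s)) +
      d • tens τ (rmul τ s ξ) (hat τ 1) + c • (rmulT τ s α - d • tens τ (rmul τ s ξ) (hat τ s)) = α
    have e3 : rmulT τ y (tens τ (rmul τ s ξ) (hat τ s)) + c • tens τ (rmul τ s ξ) (hat τ s) =
        tens τ (rmul τ s ξ) (hat τ 1) := by
      rw [rmulT_tens, ← tens_smul_right, ← tens_add_right, rmul_hat, ← hat_smul, ← hat_add, ← hs,
        mul_add, mul_smul_comm, mul_one]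
    rw [map_sub, map_smul, smul_sub, ← e3]
    have e4 := e2 α
    conv_rhs => rw [← e4]
    module

/-- the resolvent identity for the left operator -/
theorem leftOp_resolvent (y s : Elt N) (d c : ℂ) (hs : (y + c • 1) * s = 1) (ξ : L2 τ)
    (α : L2T τ) : leftOp τ y d (lmul τ s ξ, lmulT τ s α - d • tens τ (hat τ s) (lmul τ s ξ)) +
      c • (lmul τ s ξ, lmulT τ s α - d • tens τ (hat τ s) (lmul τ s ξ)) = (ξ, α) := by
  have e1 : ∀ η : L2 τ, lmul τ y (lmul τ s η) + c • lmul τ s η = η := by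
    intro η
    have : lmul τ ((y + c • 1) * s) η = η := by rw [hs, lmul_one]
    rw [lmul_mul, lmul_add, lmul_smul, lmul_one] at this
    exact this
  have e2 : ∀ η : L2T τ, lmulT τ y (lmulT τ s η) + c • lmulT τ s η = η := by
    intro η
    have : lmulT τ ((y + c • 1) * s) η = η := by rw [hs, lmulT_one]
    rw [lmulT_mul, lmulT_add, lmulT_smul, lmulT_one] at this
    exact this
  rw [leftOp_apply]
  apply Prod.ext
  · exact e1 ξ
  · show lmulT τ y (lmulT τ s α - d • tens τ (hat τ s) (lmul τ s ξ)) +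
      d • tens τ (hat τ 1) (lmul τ s ξ) + c • (lmulT τ s α - d • tens τ (hat τ s) (lmul τ s ξ)) = α
    have e3 : lmulT τ y (tens τ (hat τ s) (lmul τ s ξ)) + c • tens τ (hat τ s) (lmul τ s ξ) =
        tens τ (hat τ 1) (lmul τ s ξ) := by
      rw [lmulT_tens, ← tens_smul_left, ← tens_add_left, lmul_hat, ← hat_smul, ← hat_add, ← hs,
        add_mul, smul_mul_assoc, one_mul]
    rw [map_sub, map_smul, smul_sub, ← e3]
    have e4 := e2 α
    conv_rhs => rw [← e4]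
    module

variable {m : ℕ} (x : Fin m → Elt N)

theorem rightOp_fdqGraph (i : Fin m) (d : ℂ) (v : L2 τ × L2T τ)
    (hv : v ∈ (fdqGraph τ x i).topologicalClosure) :
    rightOp τ (d • x i) d v ∈ (fdqGraph τ x i).topologicalClosure := by
  refine map_mem_closure (rightOp τ (d • x i) d).continuous hv ?_
  intro v hv
  induction hv using Submodule.span_induction with
  | mem v hv =>
    obtain ⟨w, rfl⟩ := hv
    have h1 : rightOp τ (d • x i) d (hat τ (mono x w), fdq τ x i w) =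
        d • (hat τ (mono x (w ++ [i])), fdq τ x i (w ++ [i])) := by
      rw [rightOp_apply, fdq_snoc, if_pos rfl, rmul_hat, rmulT_smul, mul_smul_comm, hat_smul,
        mono_snoc]
      apply Prod.ext
      · rfl
      · show _ = d • _
        rw [smul_add]
    rw [h1]
    exact Submodule.smul_mem _ _ (Submodule.subset_span ⟨_, rfl⟩)
  | zero => rw [map_zero]; exact Submodule.zero_mem _
  | add v w _ _ h1 h2 => rw [map_add]; exact Submodule.add_mem _ h1 h2
  | smul c v _ h1 => rw [map_smul]; exact Submodule.smul_mem _ _ h1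

theorem leftOp_fdqGraph (i : Fin m) (d : ℂ) (v : L2 τ × L2T τ)
    (hv : v ∈ (fdqGraph τ x i).topologicalClosure) :
    leftOp τ (d • x i) d v ∈ (fdqGraph τ x i).topologicalClosure := by
  refine map_mem_closure (leftOp τ (d • x i) d).continuous hv ?_
  intro v hv
  induction hv using Submodule.span_induction with
  | mem v hv =>
    obtain ⟨w, rfl⟩ := hv
    have h1 : leftOp τ (d • x i) d (hat τ (mono x w), fdq τ x i w) =
        d • (hat τ (mono x (i :: w)), fdq τ x i (i :: w)) := by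
      rw [leftOp_apply, fdq_cons, if_pos rfl, lmul_hat, lmulT_smul, smul_mul_assoc, hat_smul,
        mono_cons]
      apply Prod.ext
      · rfl
      · show _ = d • _
        rw [smul_add]
    rw [h1]
    exact Submodule.smul_mem _ _ (Submodule.subset_span ⟨_, rfl⟩)
  | zero => rw [map_zero]; exact Submodule.zero_mem _
  | add v w _ _ h1 h2 => rw [map_add]; exact Submodule.add_mem _ h1 h2
  | smul c v _ h1 => rw [map_smul]; exact Submodule.smul_mem _ _ h1

theorem right_resolvent_mem (i : Fin m) (d c : ℂ) (hc : ‖c‖ = 1)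
    (hd : ‖((d • x i : Elt N) : K →L[ℂ] K)‖ + ‖d‖ ≤ 1 / 2) (s : Elt N)
    (hs : s * (d • x i + c • 1) = 1) (ξ : L2 τ) (α : L2T τ)
    (h : (ξ, α) ∈ (fdqGraph τ x i).topologicalClosure) :
    (rmul τ s ξ, rmulT τ s α - d • tens τ (rmul τ s ξ) (hat τ s)) ∈
      (fdqGraph τ x i).topologicalClosure := by
  refine mem_of_resolvent _ (Submodule.isClosed_topologicalClosure _) (rightOp τ (d • x i) d)
    (rightOp_norm τ _ _ hd) (rightOp_fdqGraph τ x i d) c hc _ ?_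
  rw [rightOp_resolvent τ (d • x i) s d c hs]
  exact h

theorem left_resolvent_mem (i : Fin m) (d c : ℂ) (hc : ‖c‖ = 1)
    (hd : ‖((d • x i : Elt N) : K →L[ℂ] K)‖ + ‖d‖ ≤ 1 / 2) (s : Elt N)
    (hs : (d • x i + c • 1) * s = 1) (ξ : L2 τ) (α : L2T τ)
    (h : (ξ, α) ∈ (fdqGraph τ x i).topologicalClosure) :
    (lmul τ s ξ, lmulT τ s α - d • tens τ (hat τ s) (lmul τ s ξ)) ∈
      (fdqGraph τ x i).topologicalClosure := by
  refine mem_of_resolvent _ (Submodule.isClosed_topologicalClosure _) (leftOp τ (d • x i) d)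
    (leftOp_norm τ _ _ hd) (leftOp_fdqGraph τ x i d) c hc _ ?_
  rw [leftOp_resolvent τ (d • x i) s d c hs]
  exact h

end Pool.Agent.H768R2.FQ
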