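import Pool.Agent.H768R2.FQ.Gns
import Pool.Agent.H768R2.FQ.Tens

set_option autoImplicit false

open scoped InnerProductSpace TensorProduct Topology NNReal
open Filter

namespace Pool.Agent.H768R2.FQ

universe u

variable {K : Type u} [NormedAddCommGroup K] [InnerProductSpace ℂ K] [CompleteSpace K]
variable {N : VonNeumannAlgebra K} (τ : TraceState N)

theorem tens_inner (ξ η ξ' η' : L2 τ) :
    ⟪tens τ ξ η, tens τ ξ' η'⟫_ℂ = ⟪ξ, ξ'⟫_ℂ * ⟪η, η'⟫_ℂ := by
  rw [tens, tens, UniformSpace.Completion.inner_coe, TensorProduct.inner_tmul]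

theorem tens_norm (ξ η : L2 τ) : ‖tens τ ξ η‖ = ‖ξ‖ * ‖η‖ := by
  rw [tens, UniformSpace.Completion.norm_coe, TensorProduct.norm_tmul]

theorem tens_add_left (ξ ξ' η : L2 τ) : tens τ (ξ + ξ') η = tens τ ξ η + tens τ ξ' η := by
  rw [tens, tens, tens, TensorProduct.add_tmul, UniformSpace.Completion.coe_add]

theorem tens_add_right (ξ η η' : L2 τ) : tens τ ξ (η + η') = tens τ ξ η + tens τ ξ η' := by
  rw [tens, tens, tens, TensorProduct.tmul_add, UniformSpace.Completion.coe_add]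

theorem tens_smul_left (c : ℂ) (ξ η : L2 τ) : tens τ (c • ξ) η = c • tens τ ξ η := by
  rw [tens, tens, ← TensorProduct.smul_tmul', UniformSpace.Completion.coe_smul]

theorem tens_smul_right (c : ℂ) (ξ η : L2 τ) : tens τ ξ (c • η) = c • tens τ ξ η := by
  rw [tens, tens, TensorProduct.tmul_smul, UniformSpace.Completion.coe_smul]

theorem tens_sub_right (ξ η η' : L2 τ) : tens τ ξ (η - η') = tens τ ξ η - tens τ ξ η' := by
  have := tens_smul_right τ (-1) ξ η'
  rw [sub_eq_add_neg, tens_add_right, sub_eq_add_neg]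
  congr 1
  simpa using this

theorem tens_sub_left (ξ ξ' η : L2 τ) : tens τ (ξ - ξ') η = tens τ ξ η - tens τ ξ' η := by
  have := tens_smul_left τ (-1) ξ' η
  rw [sub_eq_add_neg, tens_add_left, sub_eq_add_neg]
  congr 1
  simpa using this

/-- `ξ ↦ ξ ⊗ η` -/
noncomputable def tensR (η : L2 τ) : L2 τ →L[ℂ] L2T τ :=
  LinearMap.mkContinuous
    { toFun := fun ξ => tens τ ξ η
      map_add' := fun ξ ξ' => tens_add_left τ ξ ξ' η
      map_smul' := fun c ξ => tens_smul_left τ c ξ η } ‖η‖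
    (fun ξ => by show ‖tens τ ξ η‖ ≤ _; rw [tens_norm, mul_comm])

/-- `η ↦ ξ ⊗ η` -/
noncomputable def tensL (ξ : L2 τ) : L2 τ →L[ℂ] L2T τ :=
  LinearMap.mkContinuous
    { toFun := fun η => tens τ ξ η
      map_add' := fun η η' => tens_add_right τ ξ η η'
      map_smul' := fun c η => tens_smul_right τ c ξ η } ‖ξ‖
    (fun η => by show ‖tens τ ξ η‖ ≤ _; rw [tens_norm])

theorem tensR_apply (η ξ : L2 τ) : tensR τ η ξ = tens τ ξ η := rfl
theorem tensL_apply (ξ η : L2 τ) : tensL τ ξ η = tens τ ξ η := rfl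

/-- left multiplication on `L²(N) ⊗ L²(N)` -/
noncomputable def lmulT (a : Elt N) : L2T τ →L[ℂ] L2T τ :=
  (LinearMap.mkContinuous (LinearMap.rTensor (L2 τ) (lmul τ a : L2 τ →ₗ[ℂ] L2 τ)) ‖lmul τ a‖
    (norm_rT_le (lmul τ a))).completion

/-- right multiplication on `L²(N) ⊗ L²(N)` -/
noncomputable def rmulT (a : Elt N) : L2T τ →L[ℂ] L2T τ :=
  (LinearMap.mkContinuous (LinearMap.lTensor (L2 τ) (rmul τ a : L2 τ →ₗ[ℂ] L2 τ)) ‖rmul τ a‖
    (norm_lT_le (rmul τ a))).completion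

theorem lmulT_tens (a : Elt N) (ξ η : L2 τ) : lmulT τ a (tens τ ξ η) = tens τ (lmul τ a ξ) η := by
  rw [lmulT, tens]
  exact ContinuousLinearMap.completion_apply_coe _ _

theorem rmulT_tens (a : Elt N) (ξ η : L2 τ) : rmulT τ a (tens τ ξ η) = tens τ ξ (rmul τ a η) := by
  rw [rmulT, tens]
  exact ContinuousLinearMap.completion_apply_coe _ _

theorem lmul_norm (a : Elt N) : ‖lmul τ a‖ ≤ ‖(a : K →L[ℂ] K)‖ :=
  ContinuousLinearMap.opNorm_le_bound _ (norm_nonneg _) (lmul_norm_apply τ a)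

theorem rmul_norm (a : Elt N) : ‖rmul τ a‖ ≤ ‖(a : K →L[ℂ] K)‖ :=
  ContinuousLinearMap.opNorm_le_bound _ (norm_nonneg _) (rmul_norm_apply τ a)

theorem lmulT_norm_apply (a : Elt N) (z : L2T τ) : ‖lmulT τ a z‖ ≤ ‖(a : K →L[ℂ] K)‖ * ‖z‖ := by
  refine UniformSpace.Completion.induction_on (p := fun z => ‖lmulT τ a z‖ ≤
    ‖(a : K →L[ℂ] K)‖ * ‖z‖) z (isClosed_le (by fun_prop) (by fun_prop)) (fun b => ?_)
  rw [lmulT, ContinuousLinearMap.completion_apply_coe, UniformSpace.Completion.norm_coe,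
    UniformSpace.Completion.norm_coe]
  exact (norm_rT_le (lmul τ a) b).trans (by gcongr; exact lmul_norm τ a)

theorem rmulT_norm_apply (a : Elt N) (z : L2T τ) : ‖rmulT τ a z‖ ≤ ‖(a : K →L[ℂ] K)‖ * ‖z‖ := by
  refine UniformSpace.Completion.induction_on (p := fun z => ‖rmulT τ a z‖ ≤
    ‖(a : K →L[ℂ] K)‖ * ‖z‖) z (isClosed_le (by fun_prop) (by fun_prop)) (fun b => ?_)
  rw [rmulT, ContinuousLinearMap.completion_apply_coe, UniformSpace.Completion.norm_coe,
    UniformSpace.Completion.norm_coe]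
  exact (norm_lT_le (rmul τ a) b).trans (by gcongr; exact rmul_norm τ a)

theorem ext_tens {F : Type*} [NormedAddCommGroup F] [NormedSpace ℂ F] {S T : L2T τ →L[ℂ] F}
    (h : ∀ ξ η, S (tens τ ξ η) = T (tens τ ξ η)) (z : L2T τ) : S z = T z := by
  refine UniformSpace.Completion.induction_on (p := fun z => S z = T z) z
    (isClosed_eq (by fun_prop) (by fun_prop)) (fun b => ?_)
  induction b using TensorProduct.induction_on with
  | zero => rw [UniformSpace.Completion.coe_zero, map_zero, map_zero]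
  | tmul a b => exact h a b
  | add y1 y2 h1 h2 => rw [UniformSpace.Completion.coe_add, map_add, map_add, h1, h2]

theorem rmulT_mul (a b : Elt N) (z : L2T τ) : rmulT τ (a * b) z = rmulT τ b (rmulT τ a z) :=
  ext_tens τ (S := rmulT τ (a * b)) (T := rmulT τ b ∘L rmulT τ a) (fun ξ η => by
    rw [ContinuousLinearMap.comp_apply, rmulT_tens, rmulT_tens, rmulT_tens, rmul_mul]) z

theorem lmulT_mul (a b : Elt N) (z : L2T τ) : lmulT τ (a * b) z = lmulT τ a (lmulT τ b z) :=
  ext_tens τ (S := lmulT τ (a * b)) (T := lmulT τ a ∘L lmulT τ b) (fun ξ η => by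
    rw [ContinuousLinearMap.comp_apply, lmulT_tens, lmulT_tens, lmulT_tens, lmul_mul]) z

theorem lmulT_rmulT (a b : Elt N) (z : L2T τ) :
    lmulT τ a (rmulT τ b z) = rmulT τ b (lmulT τ a z) :=
  ext_tens τ (S := lmulT τ a ∘L rmulT τ b) (T := rmulT τ b ∘L lmulT τ a) (fun ξ η => by
    rw [ContinuousLinearMap.comp_apply, ContinuousLinearMap.comp_apply, lmulT_tens, rmulT_tens,
      rmulT_tens, lmulT_tens]) z

theorem rmulT_one (z : L2T τ) : rmulT τ 1 z = z :=
  ext_tens τ (S := rmulT τ 1) (T := ContinuousLinearMap.id ℂ _) (fun ξ η => by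
    rw [rmulT_tens, rmul_one]; rfl) z

theorem lmulT_one (z : L2T τ) : lmulT τ 1 z = z :=
  ext_tens τ (S := lmulT τ 1) (T := ContinuousLinearMap.id ℂ _) (fun ξ η => by
    rw [lmulT_tens, lmul_one]; rfl) z

theorem rmulT_add (a b : Elt N) (z : L2T τ) : rmulT τ (a + b) z = rmulT τ a z + rmulT τ b z :=
  ext_tens τ (S := rmulT τ (a + b)) (T := rmulT τ a + rmulT τ b) (fun ξ η => by
    rw [add_apply, rmulT_tens, rmulT_tens, rmulT_tens, rmul_add, tens_add_right]) z

theorem lmulT_add (a b : Elt N) (z : L2T τ) : lmulT τ (a + b) z = lmulT τ a z + lmulT τ b z :=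
  ext_tens τ (S := lmulT τ (a + b)) (T := lmulT τ a + lmulT τ b) (fun ξ η => by
    rw [add_apply, lmulT_tens, lmulT_tens, lmulT_tens, lmul_add, tens_add_left]) z

theorem rmulT_smul (c : ℂ) (a : Elt N) (z : L2T τ) : rmulT τ (c • a) z = c • rmulT τ a z :=
  ext_tens τ (S := rmulT τ (c • a)) (T := c • rmulT τ a) (fun ξ η => by
    rw [smul_apply, rmulT_tens, rmulT_tens, rmul_smul, tens_smul_right]) z

theorem lmulT_smul (c : ℂ) (a : Elt N) (z : L2T τ) : lmulT τ (c • a) z = c • lmulT τ a z :=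
  ext_tens τ (S := lmulT τ (c • a)) (T := c • lmulT τ a) (fun ξ η => by
    rw [smul_apply, lmulT_tens, lmulT_tens, lmul_smul, tens_smul_left]) z

theorem ext_tens_inner (z : L2T τ) (h : ∀ ξ η, ⟪tens τ ξ η, z⟫_ℂ = 0) : z = 0 := by
  have : ∀ y : L2T τ, ⟪z, y⟫_ℂ = 0 := by
    intro y
    exact ext_tens τ (S := innerSL ℂ z) (T := 0) (fun ξ η => by
      show ⟪z, tens τ ξ η⟫_ℂ = 0
      rw [← inner_conj_symm, h, map_zero]) y
  exact inner_self_eq_zero.1 (this z)

theorem rmulT_inner (a : Elt N) (z y : L2T τ) :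
    ⟪rmulT τ a z, y⟫_ℂ = ⟪z, rmulT τ (star a) y⟫_ℂ := by
  have h1 : ContinuousLinearMap.adjoint (rmulT τ a) y = rmulT τ (star a) y := by
    refine ext_tens τ (S := ContinuousLinearMap.adjoint (rmulT τ a)) (T := rmulT τ (star a))
      (fun ξ η => ?_) y
    rw [← sub_eq_zero]
    apply ext_tens_inner
    intro ξ' η'
    rw [inner_sub_right, ContinuousLinearMap.adjoint_inner_right, rmulT_tens, rmulT_tens,
      tens_inner, tens_inner, rmul_inner, sub_self]
  rw [← h1, ContinuousLinearMap.adjoint_inner_right]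

theorem lmulT_inner (a : Elt N) (z y : L2T τ) :
    ⟪lmulT τ a z, y⟫_ℂ = ⟪z, lmulT τ (star a) y⟫_ℂ := by
  have h1 : ContinuousLinearMap.adjoint (lmulT τ a) y = lmulT τ (star a) y := by
    refine ext_tens τ (S := ContinuousLinearMap.adjoint (lmulT τ a)) (T := lmulT τ (star a))
      (fun ξ η => ?_) y
    rw [← sub_eq_zero]
    apply ext_tens_inner
    intro ξ' η'
    rw [inner_sub_right, ContinuousLinearMap.adjoint_inner_right, lmulT_tens, lmulT_tens,
      tens_inner, tens_inner, lmul_inner, sub_self]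
  rw [← h1, ContinuousLinearMap.adjoint_inner_right]

end Pool.Agent.H768R2.FQ
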