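import Pool.Agent.H768R2.FQ.TensOps

set_option autoImplicit false

open scoped InnerProductSpace TensorProduct Topology NNReal
open Filter

namespace Pool.Agent.H768R2.FQ

universe u

variable {K : Type u} [NormedAddCommGroup K] [InnerProductSpace ℂ K] [CompleteSpace K]
variable {N : VonNeumannAlgebra K} (τ : TraceState N) {m : ℕ} (x : Fin m → Elt N)

theorem mono_nil : mono x [] = 1 := rfl

theorem mono_cons (j : Fin m) (w : List (Fin m)) : mono x (j :: w) = x j * mono x w := by
  simp [mono]

theorem mono_append (v w : List (Fin m)) : mono x (v ++ w) = mono x v * mono x w := by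
  simp [mono]

theorem mono_snoc (w : List (Fin m)) (j : Fin m) : mono x (w ++ [j]) = mono x w * x j := by
  rw [mono_append, mono_cons, mono_nil, mul_one]

theorem fdq_nil (i : Fin m) : fdq τ x i [] = 0 := by simp [fdq]

theorem fdq_cons (i j : Fin m) (w : List (Fin m)) : fdq τ x i (j :: w) =
    lmulT τ (x j) (fdq τ x i w) + if j = i then tens τ (hat τ 1) (hat τ (mono x w)) else 0 := by
  rw [fdq, List.length_cons, Finset.sum_range_succ', fdq, map_sum]
  congr 1
  · apply Finset.sum_congr rfl
    intro k _
    rw [apply_ite (lmulT τ (x j)), map_zero, lmulT_tens, lmul_hat, List.getElem?_cons_succ,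
      List.take_succ_cons, List.drop_succ_cons, mono_cons]
  · simp only [List.getElem?_cons_zero, Option.some.injEq, List.take_zero, zero_add,
      List.drop_succ_cons, List.drop_zero, mono_nil]

theorem fdq_snoc (i j : Fin m) (w : List (Fin m)) : fdq τ x i (w ++ [j]) =
    rmulT τ (x j) (fdq τ x i w) + if j = i then tens τ (hat τ (mono x w)) (hat τ 1) else 0 := by
  rw [fdq, List.length_append, List.length_singleton, Finset.sum_range_succ, fdq, map_sum]
  congr 1
  · apply Finset.sum_congr rfl
    intro k hk
    have hk' : k < w.length := Finset.mem_range.1 hk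
    rw [apply_ite (rmulT τ (x j)), map_zero, rmulT_tens, rmul_hat, List.getElem?_append_left hk',
      List.take_append_of_le_length hk'.le, List.drop_append_of_le_length hk', mono_snoc]
  · rw [List.getElem?_append_right le_rfl, List.take_append_of_le_length le_rfl,
      List.take_length, List.drop_eq_nil_of_le (by simp)]
    simp [mono_nil]

end Pool.Agent.H768R2.FQ
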